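import Pool.Agent.Q129.LQ.SH2

/-!
# Project LQ, job BASE: normalised generators and the reciprocity function
-/

set_option autoImplicit false

namespace Pool.Agent.Q129.LQ

open NumberField IsDedekindDomain Filter Topology Finset
open Pool.Agent.Q283.LQ Pool.Agent.Q151.LQ

variable {F : Type} [Field F] [NumberField F]

theorem above_unique {v : HeightOneSpectrum (𝓞 F)} {l l' : ℕ} (hl : l.Prime) (hl' : l'.Prime)
    (h : (l : 𝓞 F) ∈ v.asIdeal) (h' : (l' : 𝓞 F) ∈ v.asIdeal) : l = l' := by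
  by_contra hne
  have hc : Nat.Coprime l l' := (Nat.coprime_primes hl hl').2 hne
  have h1 : IsCoprime (l : ℤ) (l' : ℤ) := Nat.isCoprime_iff_coprime.2 hc
  obtain ⟨a, b, hab⟩ := h1
  have h2 : (1 : 𝓞 F) ∈ v.asIdeal := by
    have h3 : ((a * l + b * l' : ℤ) : 𝓞 F) = 1 := by rw [hab]; simp
    rw [← h3]
    push_cast
    exact v.asIdeal.add_mem (v.asIdeal.mul_mem_left _ h) (v.asIdeal.mul_mem_left _ h')
  exact v.isPrime.ne_top ((Ideal.eq_top_iff_one _).2 h2)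

theorem exists_above (v : HeightOneSpectrum (𝓞 F)) : ∃ l : ℕ, l.Prime ∧ (l : 𝓞 F) ∈ v.asIdeal := by
  obtain ⟨n, hn0, hn⟩ : ∃ n : ℕ, n ≠ 0 ∧ (n : 𝓞 F) ∈ v.asIdeal := by
    refine ⟨Ideal.absNorm v.asIdeal, ?_, Ideal.absNorm_mem v.asIdeal⟩
    intro h
    exact v.ne_bot (Ideal.absNorm_eq_zero_iff.1 h)
  have key : ∀ n : ℕ, n ≠ 0 → (n : 𝓞 F) ∈ v.asIdeal → ∃ l : ℕ, l.Prime ∧ (l : 𝓞 F) ∈ v.asIdeal := by
    intro n
    induction n using Nat.recOnMul with
    | zero => intro h; exact absurd rfl h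
    | one =>
      intro _ h
      rw [Nat.cast_one] at h
      exact absurd ((Ideal.eq_top_iff_one _).2 h) v.isPrime.ne_top
    | prime p hp => intro _ h; exact ⟨p, hp, h⟩
    | mul a b iha ihb =>
      intro h0 h
      rw [Nat.cast_mul] at h
      rcases v.isPrime.mem_or_mem h with h1 | h1
      · exact iha (fun e => h0 (by rw [e, zero_mul])) h1
      · exact ihb (fun e => h0 (by rw [e, mul_zero])) h1
  exact key n hn0 hn

theorem fin_above {l : ℕ} (hl : l ≠ 0) : {v : HeightOneSpectrum (𝓞 F) | (l : 𝓞 F) ∈ v.asIdeal}.Finite := by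
  have h0 : Ideal.span {(l : 𝓞 F)} ≠ 0 := by
    intro h
    rw [Ideal.zero_eq_bot, Ideal.span_singleton_eq_bot] at h
    exact hl (by exact_mod_cast h)
  refine (Ideal.finite_factors h0).subset ?_
  intro v hv
  show v.asIdeal ∣ _
  rw [Ideal.dvd_iff_le, Ideal.span_singleton_le_iff_mem]
  exact hv

theorem fin_sm (y : ℕ) : {v : HeightOneSpectrum (𝓞 F) | Sm y v}.Finite := by
  have h1 : (⋃ l ∈ (Finset.range (y + 1)).filter Nat.Prime,
      {v : HeightOneSpectrum (𝓞 F) | (l : 𝓞 F) ∈ v.asIdeal}).Finite := by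
    apply Set.Finite.biUnion (Finset.finite_toSet _)
    intro l hl
    rw [Finset.mem_coe, Finset.mem_filter] at hl
    exact fin_above hl.2.ne_zero
  refine h1.subset ?_
  rintro v ⟨l, hl, hly, hlv⟩
  simp only [Set.mem_iUnion]
  exact ⟨l, Finset.mem_filter.2 ⟨Finset.mem_range.2 (by omega), hl⟩, hlv⟩

theorem ex_above {l : ℕ} (hl : l.Prime) : ∃ v : HeightOneSpectrum (𝓞 F), (l : 𝓞 F) ∈ v.asIdeal := by
  have hu : ¬ IsUnit (l : 𝓞 F) := by
    intro h
    have h1 := NumberField.isUnit_iff_norm.1 h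
    have h2 : (Algebra.norm ℚ (algebraMap (𝓞 F) F (l : 𝓞 F))) = (l : ℚ) ^ (Module.finrank ℚ F) := by
      rw [map_natCast]
      have h3 : ((l : ℕ) : F) = algebraMap ℚ F (l : ℚ) := by simp
      rw [h3, Algebra.norm_algebraMap]
    have h3 : (RingOfIntegers.norm ℚ (l : 𝓞 F) : ℚ) = (l : ℚ) ^ (Module.finrank ℚ F) := by
      rw [← h2]; rfl
    rw [h3] at h1
    have h4 : (0 : ℚ) ≤ (l : ℚ) ^ (Module.finrank ℚ F) := by positivity
    rw [abs_of_nonneg h4] at h1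
    have h5 : (l : ℕ) ^ (Module.finrank ℚ F) = 1 := by exact_mod_cast h1
    have h6 : Module.finrank ℚ F ≠ 0 := Module.finrank_pos.ne'
    have h7 := Nat.one_lt_pow h6 hl.one_lt
    omega
  obtain ⟨M, hM, hlM⟩ := exists_max_ideal_of_mem_nonunits hu
  refine ⟨⟨M, hM.isPrime, ?_⟩, hlM⟩
  rintro rfl
  rw [Ideal.mem_bot] at hlM
  exact hl.ne_zero (by exact_mod_cast hlM)

theorem inf_all : (Set.univ : Set (HeightOneSpectrum (𝓞 F))).Infinite := by
  choose V hV using fun l : Nat.Primes => ex_above (F := F) l.2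
  have hinj : Function.Injective V := by
    intro l l' h
    apply Subtype.ext
    exact above_unique l.2 l'.2 (hV l) (h ▸ hV l')
  exact (Set.infinite_range_of_injective hinj).mono (Set.subset_univ _)

theorem fin_norm (X : ℕ) : {v : HeightOneSpectrum (𝓞 F) | Ideal.absNorm v.asIdeal ≤ X}.Finite := by
  have h := Ideal.finite_setOfPred_absNorm_le (S := 𝓞 F) X
  refine Set.Finite.of_finite_image (f := fun v : HeightOneSpectrum (𝓞 F) => v.asIdeal) (h.subset ?_) ?_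
  · rintro _ ⟨v, hv, rfl⟩
    exact hv
  · intro v _ w _ h
    exact HeightOneSpectrum.ext h

theorem tend_all : Tendsto (fun X : ℕ => ({v : HeightOneSpectrum (𝓞 F) | Ideal.absNorm v.asIdeal ≤ X}.ncard : ℝ))
    atTop atTop := by
  rw [tendsto_atTop]
  intro b
  obtain ⟨n, hn⟩ := exists_nat_ge b
  obtain ⟨T, -, hT⟩ := (inf_all (F := F)).exists_subset_card_eq n
  filter_upwards [eventually_ge_atTop (∑ v ∈ T, Ideal.absNorm v.asIdeal)] with X hX
  refine le_trans hn ?_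
  have h1 : (T : Set (HeightOneSpectrum (𝓞 F))) ⊆ {v | Ideal.absNorm v.asIdeal ≤ X} := by
    intro v hv
    refine le_trans ?_ hX
    exact Finset.single_le_sum (f := fun v : HeightOneSpectrum (𝓞 F) => Ideal.absNorm v.asIdeal)
      (fun _ _ => Nat.zero_le _) (Finset.mem_coe.1 hv)
  have h2 := Set.ncard_le_ncard h1 (fin_norm X)
  rw [Set.ncard_coe_finset, hT] at h2
  exact_mod_cast h2

/-- infinitely many primes have given symbols -/
theorem inf_symb (hC : S_CHEB) {f : ℕ} {u : Fin f → F} (hu : ∀ l, u l ≠ 0)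
    (hi : ∀ c : Fin f → ZMod 2, IsSquare (mon u c) → c = 0) (φ : Fin f → ZMod 2) :
    {v : HeightOneSpectrum (𝓞 F) | ∀ i, sb v (u i) = φ i}.Infinite := by
  intro hfin
  have h1 := hC F f u hu hi φ
  have h2 : Tendsto (fun X : ℕ =>
    ({v : HeightOneSpectrum (𝓞 F) | Ideal.absNorm v.asIdeal ≤ X ∧ ∀ i, sb v (u i) = φ i}.ncard : ℝ) /
      ({v : HeightOneSpectrum (𝓞 F) | Ideal.absNorm v.asIdeal ≤ X}.ncard : ℝ)) atTop (𝓝 0) := by
    have h3 : Tendsto (fun X : ℕ => ({v : HeightOneSpectrum (𝓞 F) | ∀ i, sb v (u i) = φ i}.ncard : ℝ) /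
      ({v : HeightOneSpectrum (𝓞 F) | Ideal.absNorm v.asIdeal ≤ X}.ncard : ℝ)) atTop (𝓝 0) :=
      Tendsto.div_atTop tendsto_const_nhds tend_all
    refine squeeze_zero (fun X => by positivity) (fun X => ?_) h3
    apply div_le_div_of_nonneg_right _ (by positivity)
    have h4 : {v : HeightOneSpectrum (𝓞 F) | Ideal.absNorm v.asIdeal ≤ X ∧ ∀ i, sb v (u i) = φ i}.ncard ≤
        {v : HeightOneSpectrum (𝓞 F) | ∀ i, sb v (u i) = φ i}.ncard :=
      Set.ncard_le_ncard (fun v hv => hv.2) hfin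
    exact_mod_cast h4
  have h5 := tendsto_nhds_unique h1 h2
  have h6 : (0 : ℝ) < 1 / 2 ^ f := by positivity
  linarith

theorem ap_symm {q q' : HeightOneSpectrum (𝓞 F)} (h : Ap q q') : Ap q' q := fun l hl h1 h2 => h l hl h2 h1

/-- a prime with given symbols, apart from two given primes -/
theorem ex_symb (hC : S_CHEB) (y : ℕ) {f : ℕ} {u : Fin f → F} (hu : ∀ l, u l ≠ 0)
    (hi : ∀ c : Fin f → ZMod 2, IsSquare (mon u c) → c = 0) (φ : Fin f → ZMod 2)
    (q q' : HeightOneSpectrum (𝓞 F)) :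
    ∃ v : HeightOneSpectrum (𝓞 F), ¬ Sm y v ∧ (fun i => sb v (u i)) = φ ∧ Ap v q ∧ Ap v q' := by
  obtain ⟨l, hl, hlq⟩ := exists_above q
  obtain ⟨l', hl', hlq'⟩ := exists_above q'
  have hfin : ({v : HeightOneSpectrum (𝓞 F) | Sm y v} ∪ ({v | (l : 𝓞 F) ∈ v.asIdeal} ∪
      {v | (l' : 𝓞 F) ∈ v.asIdeal})).Finite :=
    (fin_sm y).union ((fin_above hl.ne_zero).union (fin_above hl'.ne_zero))
  obtain ⟨v, hv, hv'⟩ := ((inf_symb hC hu hi φ).sdiff hfin).nonempty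
  simp only [Set.mem_union, Set.mem_ofPred_eq, not_or] at hv'
  refine ⟨v, hv'.1, funext hv, ?_, ?_⟩
  · intro m hm hmv hmq
    rw [above_unique hm hl hmq hlq] at hmv
    exact hv'.2.1 hmv
  · intro m hm hmv hmq
    rw [above_unique hm hl' hmq hlq'] at hmv
    exact hv'.2.2 hmv

theorem nod_of_one {v : HeightOneSpectrum (𝓞 F)} {a : F} (h : v.valuation F a = 1) : ¬ Od v a := by
  rintro ⟨n, hn⟩
  rw [h, ← WithZero.exp_zero] at hn
  have := WithZero.exp_injective hn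
  omega

theorem od_of_neg_one {v : HeightOneSpectrum (𝓞 F)} {a : F} (h : v.valuation F a = WithZero.exp (-1 : ℤ)) :
    Od v a := ⟨-1, by rw [h]; rfl⟩

theorem val_mon {v : HeightOneSpectrum (𝓞 F)} {f : ℕ} {u : Fin f → F} (h : ∀ l, v.valuation F (u l) = 1)
    (c : Fin f → ZMod 2) : v.valuation F (mon u c) = 1 := by
  unfold mon
  rw [map_prod]
  exact Finset.prod_eq_one fun l _ => by rw [map_pow, h l, one_pow]

/-- the sum of the symbols -/
theorem card_sb (s : Finset (HeightOneSpectrum (𝓞 F))) (c : F) (P : HeightOneSpectrum (𝓞 F) → Prop)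
    (hP : ∀ v, P v ↔ v ∈ s ∧ ¬ Lsq v c) :
    ((Nat.card {v : HeightOneSpectrum (𝓞 F) // P v} : ℕ) : ZMod 2) = ∑ v ∈ s, sb v c := by
  classical
  have h1 : Nat.card {v : HeightOneSpectrum (𝓞 F) // P v} = (s.filter (fun v => ¬ Lsq v c)).card := by
    rw [← Nat.card_eq_finsetCard]
    apply Nat.card_congr
    apply Equiv.subtypeEquivRight
    intro v
    rw [hP v, Finset.mem_filter]
  rw [h1, Finset.card_filter]
  push_cast
  apply Finset.sum_congr rfl
  intro v _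
  by_cases h2 : Lsq v c
  · rw [sb_zero_iff.2 h2, if_neg (not_not.2 h2)]
  · rw [sb_one_iff.2 h2, if_pos h2]

/-- the reciprocity symbol depends only on the class of the first prime -/
theorem rec_dep (hB : S_BAS) {y0 : ℕ} (hR : ∀ y, y0 ≤ y → ∀ b c : F, b ≠ 0 → c ≠ 0 →
    (∀ l : ℕ, l.Prime → y < l →
      (∀ v : HeightOneSpectrum (𝓞 F), (l : 𝓞 F) ∈ v.asIdeal → v.valuation F b = 1) ∨
      (∀ v : HeightOneSpectrum (𝓞 F), (l : 𝓞 F) ∈ v.asIdeal → v.valuation F c = 1)) →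
    Nn y b →
    Even (Nat.card {v : HeightOneSpectrum (𝓞 F) // ¬ Sm y v ∧ Od v b ∧ ¬ Lsq v c} +
      Nat.card {v : HeightOneSpectrum (𝓞 F) // ¬ Sm y v ∧ Od v c ∧ ¬ Lsq v b})) {y : ℕ} (hy : y0 ≤ y)
    (hy2 : 2 ≤ y) {f : ℕ} {u r : Fin f → F} (hr : ∀ l, r l ≠ 0) {π : HeightOneSpectrum (𝓞 F) → F}
    (hπ0 : ∀ q, ¬ Sm y q → π q ≠ 0)
    (hπ1 : ∀ q, ¬ Sm y q → q.valuation F (π q) = WithZero.exp (-1 : ℤ))
    (hπ2 : ∀ q, ¬ Sm y q → ∀ v : HeightOneSpectrum (𝓞 F), ¬ Sm y v → v ≠ q → v.valuation F (π q) = 1)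
    (hpc : ∀ q, ¬ Sm y q → Nn y (π q * mon r (fun l => sb q (u l))))
    {q1 q2 q' : HeightOneSpectrum (𝓞 F)} (h1 : ¬ Sm y q1) (h2 : ¬ Sm y q2) (h' : ¬ Sm y q')
    (hs : (fun l => sb q1 (u l)) = fun l => sb q2 (u l)) (ha1 : Ap q1 q') (ha2 : Ap q2 q') :
    sb q' (π q1) + sb q1 (π q') = sb q' (π q2) + sb q2 (π q') := by
  classical
  by_cases h12 : q1 = q2
  · rw [h12]
  have hne1 : q1 ≠ q' := by
    rintro rfl
    obtain ⟨l, hl, hlq⟩ := exists_above q1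
    exact ha1 l hl hlq hlq
  have hne2 : q2 ≠ q' := by
    rintro rfl
    obtain ⟨l, hl, hlq⟩ := exists_above q2
    exact ha2 l hl hlq hlq
  have hdy : ¬ Dy q' := fun h => h' (sm_of_dy hy2 h)
  have hb : Nn y (π q1 * π q2) := by
    have h3 := nn_mul hB (hpc q1 h1) (hpc q2 h2)
    rw [hs] at h3
    have h4 : π q1 * mon r (fun l => sb q2 (u l)) * (π q2 * mon r (fun l => sb q2 (u l))) =
        π q1 * π q2 * (mon r (fun l => sb q2 (u l))) ^ 2 := by ring
    rw [h4] at h3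
    exact nn_of_mul_sq hB (mon_ne hr _) h3
  have hsm : ∀ (l : ℕ), l.Prime → y < l → ∀ v : HeightOneSpectrum (𝓞 F), (l : 𝓞 F) ∈ v.asIdeal → ¬ Sm y v := by
    rintro l hl hyl v hlv ⟨m, hm, hmy, hmv⟩
    have := above_unique hl hm hlv hmv
    omega
  have hcond : ∀ l : ℕ, l.Prime → y < l →
      (∀ v : HeightOneSpectrum (𝓞 F), (l : 𝓞 F) ∈ v.asIdeal → v.valuation F (π q1 * π q2) = 1) ∨
      (∀ v : HeightOneSpectrum (𝓞 F), (l : 𝓞 F) ∈ v.asIdeal → v.valuation F (π q') = 1) := by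
    intro l hl hyl
    by_cases hlq : (l : 𝓞 F) ∈ q'.asIdeal
    · left
      intro v hv
      have e1 : v ≠ q1 := by
        rintro rfl
        exact ha1 l hl hv hlq
      have e2 : v ≠ q2 := by
        rintro rfl
        exact ha2 l hl hv hlq
      rw [map_mul, hπ2 q1 h1 v (hsm l hl hyl v hv) e1, hπ2 q2 h2 v (hsm l hl hyl v hv) e2, one_mul]
    · right
      intro v hv
      have e1 : v ≠ q' := by
        rintro rfl
        exact hlq hv
      exact hπ2 q' h' v (hsm l hl hyl v hv) e1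
  have hev := hR y hy (π q1 * π q2) (π q') (mul_ne_zero (hπ0 q1 h1) (hπ0 q2 h2)) (hπ0 q' h') hcond hb
  have hod : ∀ q, ¬ Sm y q → ∀ v, ¬ Sm y v → (Od v (π q) ↔ v = q) := by
    intro q hq v hv
    constructor
    · intro h
      by_contra hvq
      exact nod_of_one (hπ2 q hq v hv hvq) h
    · rintro rfl
      exact od_of_neg_one (hπ1 v hv)
  have c1 := card_sb ({q1, q2} : Finset (HeightOneSpectrum (𝓞 F))) (π q')
    (fun v => ¬ Sm y v ∧ Od v (π q1 * π q2) ∧ ¬ Lsq v (π q')) (by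
      intro v
      rw [Finset.mem_insert, Finset.mem_singleton]
      constructor
      · rintro ⟨a1, a2, a3⟩
        rw [od_mul hB v (hπ0 q1 h1) (hπ0 q2 h2), hod q1 h1 v a1, hod q2 h2 v a1] at a2
        refine ⟨?_, a3⟩
        tauto
      · rintro ⟨a1, a2⟩
        have a3 : ¬ Sm y v := by
          rcases a1 with rfl | rfl
          · exact h1
          · exact h2
        refine ⟨a3, ?_, a2⟩
        rw [od_mul hB v (hπ0 q1 h1) (hπ0 q2 h2), hod q1 h1 v a3, hod q2 h2 v a3]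
        rcases a1 with rfl | rfl
        · exact ⟨fun _ => h12, fun _ => rfl⟩
        · exact ⟨fun e => absurd e.symm h12, fun e => absurd rfl e⟩)
  have c2 := card_sb ({q'} : Finset (HeightOneSpectrum (𝓞 F))) (π q1 * π q2)
    (fun v => ¬ Sm y v ∧ Od v (π q') ∧ ¬ Lsq v (π q1 * π q2)) (by
      intro v
      rw [Finset.mem_singleton]
      constructor
      · rintro ⟨a1, a2, a3⟩
        rw [hod q' h' v a1] at a2
        exact ⟨a2, a3⟩
      · rintro ⟨a1, a2⟩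
        rw [a1] at a2 ⊢
        exact ⟨h', (hod q' h' q' h').2 rfl, a2⟩)
  obtain ⟨n, hn⟩ := hev
  have h5 := congrArg (fun n : ℕ => (n : ZMod 2)) hn
  simp only [Nat.cast_add] at h5
  rw [c1, c2, Finset.sum_pair h12, Finset.sum_singleton, CharTwo.add_self_eq_zero] at h5
  rw [sb_mul hB hdy (hπ0 q1 h1) (hπ0 q2 h2) (nod_of_one (hπ2 q1 h1 q' h' hne1.symm))
    (nod_of_one (hπ2 q2 h2 q' h' hne2.symm))] at h5
  -- all elements of `ZMod 2` are their own negatives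
  generalize sb q1 (π q') = a at *
  generalize sb q2 (π q') = b at *
  generalize sb q' (π q1) = c at *
  generalize sb q' (π q2) = d at *
  clear c1 c2 hn
  revert h5
  revert a b c d
  decide

open Classical in
/-- **JOB BASE** -/
theorem base (hBAS : S_BAS) (hBAS1 : S_BAS1) (hREC : S_REC) (hCHEB : S_CHEB) : S_BASE := by
  intro F _ _
  obtain ⟨y1, hy1⟩ := hBAS1 F
  obtain ⟨y2, hy2⟩ := hREC F
  refine ⟨max y1 y2, fun y hy => ?_⟩
  obtain ⟨f, u, r, p, B, hf⟩ := hy1 y (le_trans (le_max_left _ _) hy)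
  have hy2' : y2 ≤ y := le_trans (le_max_right _ _) hy
  choose c hc using B.pcl
  obtain ⟨π, hπ⟩ : ∃ π : HeightOneSpectrum (𝓞 F) → F, ∀ q (hq : ¬ Sm y q), π q = p q * mon u (c q hq) :=
    ⟨fun q => if hq : Sm y q then 1 else p q * mon u (c q hq), fun q hq => dif_neg hq⟩
  have hp0 : ∀ q, ¬ Sm y q → p q ≠ 0 := by
    intro q hq h
    have h1 := (B.pv q hq).1
    rw [h, map_zero] at h1
    exact WithZero.exp_ne_zero h1.symm
  have hπ0 : ∀ q, ¬ Sm y q → π q ≠ 0 := by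
    intro q hq
    rw [hπ q hq]
    exact mul_ne_zero (hp0 q hq) (mon_ne B.ue _)
  have hπ1 : ∀ q, ¬ Sm y q → q.valuation F (π q) = WithZero.exp (-1 : ℤ) := by
    intro q hq
    rw [hπ q hq, map_mul, (B.pv q hq).1, val_mon (fun l => B.uv l q hq), mul_one]
  have hπ2 : ∀ q, ¬ Sm y q → ∀ v : HeightOneSpectrum (𝓞 F), ¬ Sm y v → v ≠ q → v.valuation F (π q) = 1 := by
    intro q hq v hv hvq
    rw [hπ q hq, map_mul, (B.pv q hq).2 v hv hvq, val_mon (fun l => B.uv l v hv), mul_one]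
  have hpc : ∀ q, ¬ Sm y q → Nn y (π q * mon r (fun l => sb q (u l))) := by
    intro q hq
    have h1 := hc q hq
    rw [hπ q hq]
    have h2 : p q * mon u (c q hq) * mon r (fun l => sb q (u l)) =
        p q * mon r (fun l => sb q (u l)) * mon u (c q hq) := by ring
    rw [h2]
    exact h1
  have hdep : ∀ {q1 q2 q' : HeightOneSpectrum (𝓞 F)}, ¬ Sm y q1 → ¬ Sm y q2 → ¬ Sm y q' →
      (fun l => sb q1 (u l)) = (fun l => sb q2 (u l)) → Ap q1 q' → Ap q2 q' →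
      sb q' (π q1) + sb q1 (π q') = sb q' (π q2) + sb q2 (π q') := fun h1 h2 h' hs ha1 ha2 =>
    rec_dep hBAS hy2 hy2' B.two B.re hπ0 hπ1 hπ2 hpc h1 h2 h' hs ha1 ha2
  let Pr : (Fin f → ZMod 2) → (Fin f → ZMod 2) → HeightOneSpectrum (𝓞 F) × HeightOneSpectrum (𝓞 F) → Prop :=
    fun φ φ' z => ¬ Sm y z.1 ∧ ¬ Sm y z.2 ∧ Ap z.1 z.2 ∧ (fun l => sb z.1 (u l)) = φ ∧ (fun l => sb z.2 (u l)) = φ'
  obtain ⟨g, hg⟩ : ∃ g : (Fin f → ZMod 2) → (Fin f → ZMod 2) → ZMod 2, ∀ φ φ', (∃ z, Pr φ φ' z) →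
      ∃ z, Pr φ φ' z ∧ g φ φ' = sb z.2 (π z.1) + sb z.1 (π z.2) := by
    refine ⟨fun φ φ' => if h : ∃ z, Pr φ φ' z then sb h.choose.2 (π h.choose.1) + sb h.choose.1 (π h.choose.2)
      else 0, fun φ φ' h => ⟨h.choose, h.choose_spec, dif_pos h⟩⟩
  refine ⟨f, u, r, π, g, ⟨B.two, B.ue, B.re, ?_, B.ind, B.full, ?_, B.cls, hpc, ?_⟩, hf⟩
  · exact fun l v hv => nod_of_one (B.uv l v hv)
  · intro q hq
    refine ⟨hπ0 q hq, fun v hv => ⟨fun h => ?_, ?_⟩⟩
    · by_contra hvq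
      exact nod_of_one (hπ2 q hq v hv hvq) h
    · rintro rfl
      exact od_of_neg_one (hπ1 v hv)
  · intro q q' hq hq' hap
    obtain ⟨⟨q1, q1'⟩, ⟨h1, h1', hap1, hs1, hs1'⟩, hgz⟩ :=
      hg (fun l => sb q (u l)) (fun l => sb q' (u l)) ⟨(q, q'), hq, hq', hap, rfl, rfl⟩
    simp only at h1 h1' hap1 hs1 hs1' hgz
    rw [hgz]
    obtain ⟨q2, hq2, hs2, ha2, ha2'⟩ := ex_symb hCHEB y B.ue B.ind (fun l => sb q (u l)) q' q1'
    have e1 := hdep hq hq2 hq' hs2.symm hap ha2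
    have e2 := hdep h1 hq2 h1' (hs1.trans hs2.symm) hap1 ha2'
    have e3 := hdep h1' hq' hq2 hs1' (ap_symm ha2') (ap_symm ha2)
    rw [e1, e2, add_comm (sb q1' (π q2)), e3, add_comm]

end Pool.Agent.Q129.LQ
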