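import Pool.Agent.Q129.LQ.CHEBA
import Pool.Agent.Q208.LQ.Bas

/-!
# Project LQ, job CHEB: Frobenius elements and square roots
-/

set_option autoImplicit false

namespace Pool.Agent.Q129.LQ

open NumberField IsDedekindDomain Filter Topology Finset
open Pool.Agent.Q283.LQ Pool.Agent.Q151.LQ Pool.Agent.W401.Cheb

variable {F : Type} [Field F] [NumberField F]

theorem val_four' {v : HeightOneSpectrum (𝓞 F)} (hv : ¬ Dy v) : v.valuation F 4 = 1 := by
  have h3 : (4 : 𝓞 F) ∉ v.asIdeal := by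
    intro h
    have e : (4 : 𝓞 F) = 2 * 2 := by norm_num
    rw [e] at h
    rcases v.isPrime.mem_or_mem h with h | h
    · exact hv h
    · exact hv h
  have h4 := (v.valuation_eq_one_iff_notMem (K := F)).2 h3
  rwa [map_ofNat] at h4

/-- local squares at an odd place -/
theorem lsq_iff_sq (hB : S_BAS) {v : HeightOneSpectrum (𝓞 F)} (hv : ¬ Dy v) {α : 𝓞 F} (hα : α ∉ v.asIdeal) :
    Lsq v (algebraMap (𝓞 F) F α) ↔ IsSquare (Ideal.Quotient.mk v.asIdeal α) := by
  have hα1 := (v.valuation_eq_one_iff_notMem (K := F)).2 hα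
  have hα0 : algebraMap (𝓞 F) F α ≠ 0 := by
    intro h
    rw [h, map_zero] at hα1
    exact zero_ne_one hα1
  constructor
  · intro h
    obtain ⟨x, hx⟩ := h 0
    simp only [Nat.cast_zero, neg_zero, WithZero.exp_zero] at hx
    have h1 := Pool.Agent.Q208.LQ.val_eq_one v hx
    rw [map_mul, hα1, one_mul, map_pow] at h1
    have h2 : v.valuation F x = 1 := (pow_eq_one_iff_of_nonneg (zero_le) two_ne_zero).1 h1
    obtain ⟨γ, hγ, hγ0⟩ := Pool.Agent.Q208.LQ.int_rep v h2
    have h3 : α * γ ^ 2 - 1 ∈ v.asIdeal := by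
      refine (v.valuation_lt_one_iff_mem (K := F) _).1 ?_
      show v.valuation F (algebraMap (𝓞 F) F (α * γ ^ 2 - 1)) < 1
      have e : algebraMap (𝓞 F) F (α * γ ^ 2 - 1) = (algebraMap (𝓞 F) F α * x ^ 2 - 1) +
          algebraMap (𝓞 F) F α * ((algebraMap (𝓞 F) F γ - x) * (algebraMap (𝓞 F) F γ + x)) := by
        rw [map_sub, map_mul, map_pow, map_one]; ring
      rw [e]
      refine lt_of_le_of_lt (Valuation.map_add _ _ _) (max_lt hx ?_)
      rw [map_mul, hα1, one_mul, map_mul]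
      have h4 : v.valuation F (algebraMap (𝓞 F) F γ + x) ≤ 1 :=
        le_trans (Valuation.map_add _ _ _) (max_le (v.valuation_le_one γ) h2.le)
      calc v.valuation F (algebraMap (𝓞 F) F γ - x) * v.valuation F (algebraMap (𝓞 F) F γ + x)
          ≤ v.valuation F (algebraMap (𝓞 F) F γ - x) * 1 := mul_le_mul_right h4 _
        _ < 1 := by rw [mul_one]; exact hγ
    have hmax : v.asIdeal.IsMaximal := v.isMaximal
    let _ : Field (𝓞 F ⧸ v.asIdeal) := Ideal.Quotient.field v.asIdeal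
    have h5 : Ideal.Quotient.mk v.asIdeal α * Ideal.Quotient.mk v.asIdeal γ ^ 2 = 1 := by
      rw [← map_pow, ← map_mul, ← map_one (Ideal.Quotient.mk v.asIdeal), Ideal.Quotient.eq]
      exact h3
    have h6 : Ideal.Quotient.mk v.asIdeal γ ≠ 0 := by
      rw [Ne, Ideal.Quotient.eq_zero_iff_mem]; exact hγ0
    refine ⟨(Ideal.Quotient.mk v.asIdeal γ)⁻¹, ?_⟩
    field_simp
    exact h5
  · rintro ⟨s, hs⟩
    obtain ⟨β, rfl⟩ := Ideal.Quotient.mk_surjective s
    have hs' : α - β * β ∈ v.asIdeal := by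
      rw [← Ideal.Quotient.eq_zero_iff_mem, map_sub, map_mul, hs, sub_self]
    have hβ : β ∉ v.asIdeal := by
      intro h
      apply hα
      have : α = (α - β * β) + β * β := by ring
      rw [this]
      exact v.asIdeal.add_mem hs' (v.asIdeal.mul_mem_left _ h)
    have hβ1 := (v.valuation_eq_one_iff_notMem (K := F)).2 hβ
    have hβ0 : algebraMap (𝓞 F) F β ≠ 0 := by
      intro h
      rw [h, map_zero] at hβ1
      exact zero_ne_one hβ1
    refine (hB F v).2.2.2.2.1 _ (algebraMap (𝓞 F) F β)⁻¹ ?_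
    rw [val_four' hv]
    have e : algebraMap (𝓞 F) F α * (algebraMap (𝓞 F) F β)⁻¹ ^ 2 - 1 =
        (algebraMap (𝓞 F) F (α - β * β)) * (algebraMap (𝓞 F) F β)⁻¹ ^ 2 := by
      rw [map_sub, map_mul]
      field_simp
    rw [e, map_mul, map_pow, map_inv₀, hβ1, inv_one, one_pow, mul_one]
    exact (v.valuation_lt_one_iff_mem (K := F) _).2 hs'

/-- a Frobenius element and a square root -/
theorem frob_sqrt {v : HeightOneSpectrum (𝓞 F)} (hv : ¬ Dy v) {α : 𝓞 F} (hα : α ∉ v.asIdeal)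
    {t : AlgebraicClosure F} (ht : t ^ 2 = algebraMap F (AlgebraicClosure F) (algebraMap (𝓞 F) F α))
    {σ : GK F} (hσ : IsFrob v σ) : σ t = t ↔ IsSquare (Ideal.Quotient.mk v.asIdeal α) := by
  classical
  obtain ⟨Q, hQm, hQv, hQ⟩ := hσ
  have hti : IsIntegral ℤ t := by
    apply IsIntegral.of_pow (n := 2) (by norm_num)
    rw [ht]
    exact (RingOfIntegers.isIntegral_coe α).algebraMap
  let T : 𝓞 (AlgebraicClosure F) := ⟨t, hti⟩
  have hT2 : T ^ 2 = algebraMap (𝓞 F) (𝓞 (AlgebraicClosure F)) α := by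
    apply RingOfIntegers.ext
    exact ht
  have hmem : ∀ β : 𝓞 F, algebraMap (𝓞 F) (𝓞 (AlgebraicClosure F)) β ∈ Q ↔ β ∈ v.asIdeal := by
    intro β
    rw [← hQv, Ideal.mem_comap]
  have hTQ : T ∉ Q := by
    intro h
    apply hα
    rw [← hmem, ← hT2]
    exact Q.pow_mem_of_mem h 2 (by norm_num)
  have h2Q : (2 : 𝓞 (AlgebraicClosure F)) ∉ Q := by
    intro h
    apply hv
    show (2 : 𝓞 F) ∈ v.asIdeal
    rw [← hmem, map_ofNat]
    exact h
  have h2T : 2 * T ∉ Q := by
    intro h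
    rcases hQm.isPrime.mem_or_mem h with h1 | h1
    · exact h2Q h1
    · exact hTQ h1
  have : Finite (𝓞 F ⧸ v.asIdeal) := Ideal.finiteQuotientOfFreeOfNeBot v.asIdeal v.ne_bot
  let _ : Fintype (𝓞 F ⧸ v.asIdeal) := Fintype.ofFinite _
  have hmax : v.asIdeal.IsMaximal := v.isMaximal
  let _ : Field (𝓞 F ⧸ v.asIdeal) := Ideal.Quotient.field v.asIdeal
  have hN : Ideal.absNorm v.asIdeal = Fintype.card (𝓞 F ⧸ v.asIdeal) := by
    rw [Ideal.absNorm_apply, Submodule.cardQuot_apply, Nat.card_eq_fintype_card]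
  have hchar : ringChar (𝓞 F ⧸ v.asIdeal) ≠ 2 := by
    intro h
    apply hv
    show (2 : 𝓞 F) ∈ v.asIdeal
    rw [← Ideal.Quotient.eq_zero_iff_mem, map_ofNat]
    have h1 := ringChar.Nat.cast_ringChar (R := 𝓞 F ⧸ v.asIdeal)
    rw [h] at h1
    exact_mod_cast h1
  have hα0 : Ideal.Quotient.mk v.asIdeal α ≠ 0 := by
    rw [Ne, Ideal.Quotient.eq_zero_iff_mem]; exact hα
  have hodd : Fintype.card (𝓞 F ⧸ v.asIdeal) % 2 = 1 := FiniteField.odd_card_of_char_ne_two hchar
  have hpow : T ^ Ideal.absNorm v.asIdeal = algebraMap (𝓞 F) (𝓞 (AlgebraicClosure F))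
      (α ^ (Fintype.card (𝓞 F ⧸ v.asIdeal) / 2)) * T := by
    rw [hN, map_pow, ← hT2, ← pow_mul, ← pow_succ]
    congr 1
    omega
  have hTf := hQ T
  rw [hpow] at hTf
  have hσT : (σ • T : 𝓞 (AlgebraicClosure F)) = T ∨ (σ • T : 𝓞 (AlgebraicClosure F)) = -T := by
    have h1 := ch_spec ht σ
    rcases z2_cases (ch t σ) with h2 | h2
    · left
      rw [h2, sg_zero, one_mul] at h1
      exact RingOfIntegers.ext h1
    · right
      rw [h2, sg_one, neg_one_mul] at h1
      exact RingOfIntegers.ext h1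
  have hσt : σ t = t ↔ (σ • T : 𝓞 (AlgebraicClosure F)) = T := by
    constructor
    · intro h; exact RingOfIntegers.ext h
    · intro h; exact congrArg (fun z : 𝓞 (AlgebraicClosure F) => (z : AlgebraicClosure F)) h
  rw [hσt, FiniteField.isSquare_iff hchar hα0]
  constructor
  · intro h
    rcases FiniteField.pow_dichotomy hchar hα0 with h1 | h1
    · exact h1
    · exfalso
      rw [← map_pow, ← map_one (Ideal.Quotient.mk v.asIdeal), ← map_neg, Ideal.Quotient.eq] at h1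
      rw [← hmem, map_sub, map_neg, map_one] at h1
      rw [h] at hTf
      apply h2T
      have h3 : 2 * T = (T - algebraMap (𝓞 F) (𝓞 (AlgebraicClosure F))
        (α ^ (Fintype.card (𝓞 F ⧸ v.asIdeal) / 2)) * T) + (algebraMap (𝓞 F) (𝓞 (AlgebraicClosure F))
        (α ^ (Fintype.card (𝓞 F ⧸ v.asIdeal) / 2)) - -1) * T := by ring
      rw [h3]
      exact Q.add_mem hTf (Q.mul_mem_right _ h1)
  · intro h1
    rw [← map_pow, ← map_one (Ideal.Quotient.mk v.asIdeal), Ideal.Quotient.eq] at h1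
    rw [← hmem, map_sub, map_one] at h1
    rcases hσT with h | h
    · exact h
    · exfalso
      rw [h] at hTf
      apply h2T
      have h3 : 2 * T = - (-T - algebraMap (𝓞 F) (𝓞 (AlgebraicClosure F))
        (α ^ (Fintype.card (𝓞 F ⧸ v.asIdeal) / 2)) * T) - (algebraMap (𝓞 F) (𝓞 (AlgebraicClosure F))
        (α ^ (Fintype.card (𝓞 F ⧸ v.asIdeal) / 2)) - 1) * T := by ring
      rw [h3]
      exact Q.sub_mem (Q.neg_mem hTf) (Q.mul_mem_right _ h1)

end Pool.Agent.Q129.LQ
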