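import Pool.Agent.Q129.LQ.BASE
import Pool.Agent.Q129.LQ.CHEBB
import Pool.Agent.W401.Cheb.Main
import Pool.Agent.W352.ChAbs.Main

/-!
# Project LQ, job CHEB: Chebotarev's theorem for quadratic residue symbols
-/

set_option autoImplicit false

namespace Pool.Agent.Q129.LQ

open NumberField IsDedekindDomain Filter Topology Finset
open Pool.Agent.Q283.LQ Pool.Agent.Q151.LQ Pool.Agent.W401.Cheb

theorem chebK : ChebK := Pool.Agent.W352.ChAbs.main chebotarev W54.ChTor.main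

variable {F : Type} [Field F] [NumberField F]

theorem fin_mem {α : 𝓞 F} (hα : α ≠ 0) : {v : HeightOneSpectrum (𝓞 F) | α ∈ v.asIdeal}.Finite := by
  have h0 : Ideal.span {α} ≠ 0 := by
    intro h
    rw [Ideal.zero_eq_bot, Ideal.span_singleton_eq_bot] at h
    exact hα h
  refine (Ideal.finite_factors h0).subset ?_
  intro v hv
  show v.asIdeal ∣ _
  rw [Ideal.dvd_iff_le, Ideal.span_singleton_le_iff_mem]
  exact hv

/-- every class modulo squares contains an integer -/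
theorem int_class {a : F} (ha : a ≠ 0) : ∃ (α : 𝓞 F) (y : F), α ≠ 0 ∧ y ≠ 0 ∧
    algebraMap (𝓞 F) F α = a * y ^ 2 := by
  obtain ⟨p, q, hq, hpq⟩ := IsFractionRing.div_surjective (A := 𝓞 F) a
  have hq0 : algebraMap (𝓞 F) F q ≠ 0 := by
    intro h
    exact nonZeroDivisors.ne_zero hq ((map_eq_zero_iff _ (FaithfulSMul.algebraMap_injective (𝓞 F) F)).1 h)
  have hp0 : algebraMap (𝓞 F) F p ≠ 0 := by
    intro h
    rw [h, zero_div] at hpq
    exact ha hpq.symm
  refine ⟨p * q, algebraMap (𝓞 F) F q, ?_, hq0, ?_⟩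
  · intro h
    have h1 := congrArg (algebraMap (𝓞 F) F) h
    rw [map_mul, map_zero] at h1
    exact mul_ne_zero hp0 hq0 h1
  · rw [map_mul, ← hpq]
    field_simp

theorem lsq_class (hB : S_BAS) {v : HeightOneSpectrum (𝓞 F)} {a b y : F} (hy : y ≠ 0) (h : b = a * y ^ 2) :
    Lsq v a ↔ Lsq v b := by
  constructor
  · intro h1
    rw [h]
    exact lsq_mul hB h1 (lsq_sq hB v hy)
  · intro h1
    rw [h] at h1
    exact lsq_of_mul_sq hB hy h1

/-- at almost all places the characters of the Frobenius elements are the residue symbols -/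
theorem sym_frob (hB : S_BAS) {m : ℕ} {a : Fin m → F} (ha : ∀ i, a i ≠ 0) {s : Fin m → AlgebraicClosure F}
    (hs : ∀ i, s i ^ 2 = algebraMap F (AlgebraicClosure F) (a i)) :
    ∃ S : Set (HeightOneSpectrum (𝓞 F)), S.Finite ∧ ∀ v ∉ S, ∀ σ : GK F, IsFrob v σ →
      ∀ i, ch (s i) σ = sb v (a i) := by
  choose α y hα0 hy hα using fun i => int_class (ha i)
  refine ⟨{v | Dy v} ∪ ⋃ i, {v : HeightOneSpectrum (𝓞 F) | α i ∈ v.asIdeal}, ?_, ?_⟩
  · apply Set.Finite.union
    · exact fin_mem (F := F) (α := 2) two_ne_zero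
    · exact Set.finite_iUnion fun i => fin_mem (hα0 i)
  · intro v hv σ hσ i
    have hv1 : ¬ Dy v := fun h => hv (Or.inl h)
    have hv2 : α i ∉ v.asIdeal := fun h => hv (Or.inr (Set.mem_iUnion.2 ⟨i, h⟩))
    have hyK : algebraMap F (AlgebraicClosure F) (y i) ≠ 0 := (map_ne_zero _).2 (hy i)
    have ht : (s i * algebraMap F (AlgebraicClosure F) (y i)) ^ 2 =
        algebraMap F (AlgebraicClosure F) (algebraMap (𝓞 F) F (α i)) := by
      rw [hα i, mul_pow, hs i, map_mul, map_pow]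
    have h1 := frob_sqrt hv1 hv2 ht hσ
    rw [← lsq_iff_sq hB hv1 hv2, ← lsq_class hB (hy i) (hα i)] at h1
    have h2 : σ (s i * algebraMap F (AlgebraicClosure F) (y i)) = s i * algebraMap F (AlgebraicClosure F) (y i) ↔
        σ (s i) = s i := by
      rw [map_mul, σ.commutes]
      exact mul_left_inj' hyK
    rw [h2] at h1
    by_cases h3 : Lsq v (a i)
    · rw [sb_zero_iff.2 h3]
      exact ch_zero_iff.2 (h1.2 h3)
    · rw [sb_one_iff.2 h3]
      rcases z2_cases (ch (s i) σ) with h4 | h4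
      · exact absurd (h1.1 (ch_zero_iff.1 h4)) h3
      · exact h4

theorem fin_le (X : ℕ) (P : HeightOneSpectrum (𝓞 F) → Prop) :
    {v : HeightOneSpectrum (𝓞 F) | Ideal.absNorm v.asIdeal ≤ X ∧ P v}.Finite :=
  (fin_norm X).subset fun _ hv => hv.1

theorem dens_eq (P : HeightOneSpectrum (𝓞 F) → Prop) (X : ℕ) :
    dens P X = ({v : HeightOneSpectrum (𝓞 F) | Ideal.absNorm v.asIdeal ≤ X ∧ P v}.ncard : ℝ) /
      (Nat.primeCounting X : ℝ) := rfl

/-- comparison of two properties which agree at almost all places -/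
theorem cmp (P Q : HeightOneSpectrum (𝓞 F) → Prop) (S : Set (HeightOneSpectrum (𝓞 F))) (hS : S.Finite)
    (h : ∀ v ∉ S, P v → Q v) (X : ℕ) :
    ({v : HeightOneSpectrum (𝓞 F) | Ideal.absNorm v.asIdeal ≤ X ∧ P v}.ncard : ℝ) ≤
      ({v : HeightOneSpectrum (𝓞 F) | Ideal.absNorm v.asIdeal ≤ X ∧ Q v}.ncard : ℝ) + S.ncard := by
  have h1 : {v : HeightOneSpectrum (𝓞 F) | Ideal.absNorm v.asIdeal ≤ X ∧ P v} ⊆
      {v : HeightOneSpectrum (𝓞 F) | Ideal.absNorm v.asIdeal ≤ X ∧ Q v} ∪ S := by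
    rintro v ⟨hv1, hv2⟩
    by_cases hv : v ∈ S
    · exact Or.inr hv
    · exact Or.inl ⟨hv1, h v hv hv2⟩
  have h2 := Set.ncard_le_ncard h1 ((fin_le X Q).union hS)
  have h3 := le_trans h2 (Set.ncard_union_le _ _)
  exact_mod_cast h3

/-- **JOB CHEB** -/
theorem cheb (hBAS : S_BAS) : S_CHEB := by
  classical
  intro F _ _ m a ha hi e
  have hex : ∀ i, ∃ s : AlgebraicClosure F, s ^ 2 = algebraMap F (AlgebraicClosure F) (a i) := by
    intro i
    exact IsAlgClosed.exists_pow_nat_eq _ (by norm_num)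
  choose s hs using hex
  obtain ⟨Φ, hΦ⟩ := ch_hom ha hs
  have hsurj := ch_surj ha hs hi Φ hΦ
  have hopen := ker_open Φ hΦ
  obtain ⟨S, hS, hSv⟩ := sym_frob hBAS ha hs
  -- Chebotarev's theorem for the class
  let C : Set (GK F) := {σ | Φ σ = Multiplicative.ofAdd e}
  have h1 := chebK F Φ.ker hopen C (by
      intro σ hσ τ
      show Φ (τ * σ * τ⁻¹) = _
      rw [map_mul, map_mul, map_inv, mul_comm (Φ τ), mul_inv_cancel_right]
      exact hσ) (by
      intro σ hσ u hu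
      show Φ (σ * u) = _
      rw [map_mul, MonoidHom.mem_ker.1 hu, mul_one]
      exact hσ)
  obtain ⟨σ0, hσ0⟩ := hsurj (Multiplicative.ofAdd e)
  have hC1 : ((QuotientGroup.mk : GK F → GK F ⧸ Φ.ker) '' C).ncard = 1 := by
    rw [Set.ncard_eq_one]
    refine ⟨QuotientGroup.mk σ0, ?_⟩
    ext x
    constructor
    · rintro ⟨σ, hσ, rfl⟩
      rw [Set.mem_singleton_iff, QuotientGroup.eq, MonoidHom.mem_ker, map_mul, map_inv, hσ0]
      have : Φ σ = Multiplicative.ofAdd e := hσ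
      rw [this, inv_mul_cancel]
    · intro hx
      rw [Set.mem_singleton_iff] at hx
      exact ⟨σ0, hσ0, hx.symm⟩
  have hC2 : Nat.card (GK F ⧸ Φ.ker) = 2 ^ m := by
    rw [Nat.card_congr (QuotientGroup.quotientKerEquivOfSurjective Φ hsurj).toEquiv]
    have h2 : Nat.card (Multiplicative (Fin m → ZMod 2)) = Nat.card (Fin m → ZMod 2) := rfl
    rw [h2, Nat.card_eq_fintype_card]
    simp [ZMod.card]
  rw [hC1, hC2] at h1
  push_cast at h1
  -- all places
  have h2 := chebK F (⊤ : Subgroup (GK F)) isOpen_univ Set.univ (fun _ _ _ => Set.mem_univ _)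
    (fun _ _ _ _ => Set.mem_univ _)
  have hT1 : ((QuotientGroup.mk : GK F → GK F ⧸ (⊤ : Subgroup (GK F))) '' Set.univ).ncard = 1 := by
    rw [Set.ncard_eq_one]
    refine ⟨QuotientGroup.mk 1, ?_⟩
    ext x
    constructor
    · rintro ⟨σ, -, rfl⟩
      rw [Set.mem_singleton_iff, QuotientGroup.eq]
      exact Subgroup.mem_top _
    · intro hx
      rw [Set.mem_singleton_iff] at hx
      exact ⟨1, Set.mem_univ _, hx.symm⟩
  have hT2 : Nat.card (GK F ⧸ (⊤ : Subgroup (GK F))) = 1 := by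
    have := Subgroup.index_top (G := GK F)
    exact this
  rw [hT1, hT2] at h2
  have hfr := (Pool.Agent.W401.Frob.main F).1
  -- the ratio
  have h3 : Tendsto (fun X : ℕ =>
      ({v : HeightOneSpectrum (𝓞 F) | Ideal.absNorm v.asIdeal ≤ X ∧ ∃ σ ∈ C, IsFrob v σ}.ncard : ℝ) /
      ({v : HeightOneSpectrum (𝓞 F) | Ideal.absNorm v.asIdeal ≤ X}.ncard : ℝ)) atTop (𝓝 (1 / 2 ^ m)) := by
    have h4 := h1.div h2 (by norm_num)
    have h5 : (1 : ℝ) / 2 ^ m / (((1 : ℕ) : ℝ) / ((1 : ℕ) : ℝ)) = 1 / 2 ^ m := by norm_num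
    rw [h5] at h4
    refine h4.congr' ?_
    filter_upwards [eventually_ge_atTop 2] with X hX
    rw [Pi.div_apply, dens_eq, dens_eq]
    have h6 : {v : HeightOneSpectrum (𝓞 F) | Ideal.absNorm v.asIdeal ≤ X ∧ ∃ σ ∈ (Set.univ : Set (GK F)), IsFrob v σ} =
        {v : HeightOneSpectrum (𝓞 F) | Ideal.absNorm v.asIdeal ≤ X} := by
      ext v
      constructor
      · exact fun h => h.1
      · intro h
        obtain ⟨σ, hσ⟩ := hfr v
        exact ⟨h, σ, Set.mem_univ _, hσ⟩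
    rw [h6]
    have h7 : (Nat.primeCounting X : ℝ) ≠ 0 := by
      have h8 : 0 < Nat.primeCounting X := by
        have h9 : Nat.primeCounting 2 ≤ Nat.primeCounting X := Nat.monotone_primeCounting hX
        have h10 : 0 < Nat.primeCounting 2 := by decide
        omega
      exact_mod_cast h8.ne'
    rw [div_div_div_cancel_right₀ h7]
  -- comparison
  have hK : Tendsto (fun X : ℕ => (S.ncard : ℝ) /
      ({v : HeightOneSpectrum (𝓞 F) | Ideal.absNorm v.asIdeal ≤ X}.ncard : ℝ)) atTop (𝓝 0) :=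
    Tendsto.div_atTop tendsto_const_nhds tend_all
  have hlow := h3.sub hK
  have hupp := h3.add hK
  rw [sub_zero] at hlow
  rw [add_zero] at hupp
  have hPQ : ∀ v ∉ S, (∀ i, sb v (a i) = e i) → ∃ σ ∈ C, IsFrob v σ := by
    intro v hv h
    obtain ⟨σ, hσ⟩ := hfr v
    refine ⟨σ, ?_, hσ⟩
    show Φ σ = _
    rw [hΦ]
    congr 1
    funext i
    rw [hSv v hv σ hσ i, h i]
  have hQP : ∀ v ∉ S, (∃ σ ∈ C, IsFrob v σ) → ∀ i, sb v (a i) = e i := by
    rintro v hv ⟨σ, hσC, hσ⟩ i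
    have h4 : Φ σ = Multiplicative.ofAdd e := hσC
    rw [hΦ] at h4
    have h5 := congrFun (Multiplicative.ofAdd.injective h4) i
    rw [← hSv v hv σ hσ i]
    exact h5
  refine tendsto_of_tendsto_of_tendsto_of_le_of_le hlow hupp (fun X => ?_) (fun X => ?_)
  · show _ / _ - _ / _ ≤ _ / _
    rw [← sub_div]
    apply div_le_div_of_nonneg_right _ (Nat.cast_nonneg _)
    have h4 := cmp (fun v => ∃ σ ∈ C, IsFrob v σ) (fun v => ∀ i, sb v (a i) = e i) S hS hQP X
    linarith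
  · show _ / _ ≤ _ / _ + _ / _
    rw [← add_div]
    apply div_le_div_of_nonneg_right _ (Nat.cast_nonneg _)
    exact cmp (fun v => ∀ i, sb v (a i) = e i) (fun v => ∃ σ ∈ C, IsFrob v σ) S hS hPQ X

end Pool.Agent.Q129.LQ
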