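import Pool.Agent.Q129.LQ.SH2
import Pool.Agent.W401.Cheb.Frob

/-!
# Project LQ, job CHEB: the Galois group of the square roots
-/

set_option autoImplicit false

namespace Pool.Agent.Q129.LQ

open NumberField IsDedekindDomain Filter Topology Finset
open Pool.Agent.Q283.LQ Pool.Agent.Q151.LQ Pool.Agent.W401.Cheb

variable {F : Type} [Field F] [NumberField F]

/-- the sign -/
noncomputable def sg (x : ZMod 2) : AlgebraicClosure F := (-1) ^ x.val

theorem sg_zero : sg (F := F) 0 = 1 := by simp [sg]

theorem sg_one : sg (F := F) 1 = -1 := by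
  have : (1 : ZMod 2).val = 1 := rfl
  simp [sg, this]

theorem z2_cases (x : ZMod 2) : x = 0 ∨ x = 1 := by revert x; decide

theorem sg_add (x y : ZMod 2) : sg (F := F) (x + y) = sg x * sg y := by
  rcases z2_cases x with rfl | rfl <;> rcases z2_cases y with rfl | rfl
  · simp [sg_zero]
  · simp [sg_zero]
  · simp [sg_zero]
  · have : (1 : ZMod 2) + 1 = 0 := rfl
    rw [this, sg_zero, sg_one]; ring

theorem sg_pow (x c : ZMod 2) : sg (F := F) x ^ c.val = sg (x * c) := by
  rcases z2_cases c with rfl | rfl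
  · simp [sg_zero]
  · have : (1 : ZMod 2).val = 1 := rfl
    rw [this, pow_one, mul_one]

theorem sg_sum {ι : Type} (s : Finset ι) (x : ι → ZMod 2) :
    ∏ i ∈ s, sg (F := F) (x i) = sg (∑ i ∈ s, x i) := by
  classical
  induction s using Finset.induction_on with
  | empty => simp [sg_zero]
  | insert i s hi ih => rw [Finset.prod_insert hi, Finset.sum_insert hi, sg_add, ih]

theorem sg_inj {x y : ZMod 2} (h : sg (F := F) x = sg y) : x = y := by
  have h1 : (-1 : AlgebraicClosure F) ≠ 1 := by
    intro h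
    have h2 : (2 : AlgebraicClosure F) = 0 := by linear_combination -h
    exact two_ne_zero h2
  rcases z2_cases x with rfl | rfl <;> rcases z2_cases y with rfl | rfl
  · rfl
  · rw [sg_zero, sg_one] at h; exact absurd h.symm h1
  · rw [sg_zero, sg_one] at h; exact absurd h h1
  · rfl

open Classical in
/-- the character of a square root -/
noncomputable def ch (s : AlgebraicClosure F) (σ : GK F) : ZMod 2 := if σ s = s then 0 else 1

theorem ch_spec {s : AlgebraicClosure F} {a : F} (hs : s ^ 2 = algebraMap F (AlgebraicClosure F) a) (σ : GK F) :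
    σ s = sg (ch s σ) * s := by
  have h1 : (σ s) ^ 2 = s ^ 2 := by
    rw [← map_pow, hs]
    exact σ.commutes a
  unfold ch
  split_ifs with h
  · rw [h, sg_zero, one_mul]
  · rw [sg_one]
    rcases sq_eq_sq_iff_eq_or_eq_neg.1 h1 with h2 | h2
    · exact absurd h2 h
    · rw [h2]; ring

theorem ch_zero_iff {s : AlgebraicClosure F} {σ : GK F} : ch s σ = 0 ↔ σ s = s := by
  unfold ch
  split_ifs with h
  · simp [h]
  · simp [h]

theorem ch_mul {s : AlgebraicClosure F} {a : F} (ha : a ≠ 0) (hs : s ^ 2 = algebraMap F (AlgebraicClosure F) a)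
    (σ τ : GK F) : ch s (σ * τ) = ch s σ + ch s τ := by
  have hs0 : s ≠ 0 := by
    rintro rfl
    apply ha
    rw [zero_pow two_ne_zero] at hs
    exact (map_eq_zero (algebraMap F (AlgebraicClosure F))).1 hs.symm
  apply sg_inj (F := F)
  apply mul_right_cancel₀ hs0
  rw [← ch_spec hs (σ * τ), sg_add]
  have h1 : (σ * τ) s = σ (τ s) := rfl
  have h2 : ∀ x : ZMod 2, σ (sg x) = sg x := by
    intro x
    rcases z2_cases x with rfl | rfl
    · rw [sg_zero, map_one]
    · rw [sg_one, map_neg, map_one]
  rw [h1, ch_spec hs τ, map_mul, h2, ch_spec hs σ]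
  ring

section

variable {m : ℕ} {a : Fin m → F} (ha : ∀ i, a i ≠ 0) {s : Fin m → AlgebraicClosure F}
  (hs : ∀ i, s i ^ 2 = algebraMap F (AlgebraicClosure F) (a i))

include ha hs in
theorem ch_hom : ∃ Φ : GK F →* Multiplicative (Fin m → ZMod 2), ∀ σ, Φ σ = Multiplicative.ofAdd fun i => ch (s i) σ := by
  refine ⟨MonoidHom.mk' (fun σ => Multiplicative.ofAdd fun i => ch (s i) σ) ?_, fun σ => rfl⟩
  intro σ τ
  rw [← ofAdd_add]
  congr 1
  funext i
  exact ch_mul (ha i) (hs i) σ τ

/-- the kernel of the characters is open -/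
theorem ker_open (Φ : GK F →* Multiplicative (Fin m → ZMod 2))
    (hΦ : ∀ σ, Φ σ = Multiplicative.ofAdd fun i => ch (s i) σ) : IsOpen (Φ.ker : Set (GK F)) := by
  have h1 : (Φ.ker : Set (GK F)) = ⋂ i, (MulAction.stabilizer (GK F) (s i) : Set (GK F)) := by
    ext σ
    rw [SetLike.mem_coe, MonoidHom.mem_ker, hΦ, Set.mem_iInter]
    constructor
    · intro h i
      rw [SetLike.mem_coe, MulAction.mem_stabilizer_iff]
      have h2 := congrFun (Multiplicative.ofAdd.injective (h.trans ofAdd_zero.symm)) i
      exact ch_zero_iff.1 h2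
    · intro h
      rw [← ofAdd_zero]
      congr 1
      funext i
      exact ch_zero_iff.2 (MulAction.mem_stabilizer_iff.1 (h i))
  rw [h1]
  exact isOpen_iInter_of_finite fun i => stabilizer_isOpen_of_isIntegral (K := F) (s i)

include ha hs in
/-- the characters are independent -/
theorem ch_surj (hi : ∀ c : Fin m → ZMod 2, IsSquare (mon a c) → c = 0)
    (Φ : GK F →* Multiplicative (Fin m → ZMod 2))
    (hΦ : ∀ σ, Φ σ = Multiplicative.ofAdd fun i => ch (s i) σ) : Function.Surjective Φ := by
  classical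
  let V : Submodule (ZMod 2) (Fin m → ZMod 2) :=
    AddSubgroup.toZModSubmodule 2 (Subgroup.toAddSubgroup' Φ.range)
  have hV : ∀ σ, (fun i => ch (s i) σ) ∈ V := by
    intro σ
    show Multiplicative.ofAdd (fun i => ch (s i) σ) ∈ Φ.range
    exact ⟨σ, hΦ σ⟩
  by_contra hns
  have hVt : V < ⊤ := by
    rw [lt_top_iff_ne_top]
    intro h
    apply hns
    intro x
    have h1 : Multiplicative.toAdd x ∈ V := by rw [h]; exact Submodule.mem_top
    have h2 : x ∈ Φ.range := h1
    exact h2
  obtain ⟨φ, hφ0, hφ⟩ := Submodule.exists_le_ker_of_lt_top V hVt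
  let c : Fin m → ZMod 2 := fun i => φ (Pi.single i 1)
  have hdot : ∀ v : Fin m → ZMod 2, φ v = ∑ i, v i * c i := by
    intro v
    have h1 : v = ∑ i, v i • (Pi.single i 1 : Fin m → ZMod 2) := by
      funext j
      rw [Finset.sum_apply, Finset.sum_eq_single j]
      · simp
      · intro b _ hb
        simp [Pi.single_eq_of_ne hb.symm]
      · intro h; exact absurd (Finset.mem_univ j) h
    conv_lhs => rw [h1]
    rw [map_sum]
    apply Finset.sum_congr rfl
    intro i _
    rw [map_smul, smul_eq_mul]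
  have hc : c = 0 := by
    apply hi
    let P : AlgebraicClosure F := ∏ i, s i ^ (c i).val
    have hP2 : P ^ 2 = algebraMap F (AlgebraicClosure F) (mon a c) := by
      show (∏ i, s i ^ (c i).val) ^ 2 = _
      unfold mon
      rw [map_prod, ← Finset.prod_pow]
      apply Finset.prod_congr rfl
      intro i _
      rw [map_pow, ← hs i, ← pow_mul, ← pow_mul, mul_comm]
    have hfix : ∀ σ : GK F, σ P = P := by
      intro σ
      show σ (∏ i, s i ^ (c i).val) = ∏ i, s i ^ (c i).val
      rw [map_prod]
      have h1 : ∀ i, σ (s i ^ (c i).val) = sg (ch (s i) σ * c i) * s i ^ (c i).val := by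
        intro i
        rw [map_pow, ch_spec (hs i) σ, mul_pow, sg_pow]
      rw [Finset.prod_congr rfl fun i _ => h1 i, Finset.prod_mul_distrib, sg_sum]
      have h2 : ∑ i, ch (s i) σ * c i = 0 := by
        rw [← hdot]
        exact hφ (hV σ)
      rw [h2, sg_zero, one_mul]
    haveI : IsGalois F (AlgebraicClosure F) := inferInstance
    obtain ⟨b, hb⟩ := (InfiniteGalois.mem_range_algebraMap_iff_fixed P).2 hfix
    refine ⟨b, ?_⟩
    apply (algebraMap F (AlgebraicClosure F)).injective
    rw [← hP2, ← hb, map_mul, sq]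
  apply hφ0
  ext v
  simp [hdot, hc]

end

end Pool.Agent.Q129.LQ
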