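import Pool.Agent.Q283.LQ.Stm

/-!
# Project LQ: the mean number of solutions of the tables
-/

set_option autoImplicit false

namespace Pool.Agent.Q129.LQ

open Finset Pool.Agent.Q283.LQ

theorem dot_add_left {f : ℕ} (a b c : Fin f → ZMod 2) : dot (a + b) c = dot a c + dot b c := by
  simp [dot, add_mul, Finset.sum_add_distrib]

theorem dot_single {f : ℕ} (l : Fin f) (s : ZMod 2) (c : Fin f → ZMod 2) (hc : c l = 1) :
    dot (Pi.single l s) c = s := by
  unfold dot
  rw [Finset.sum_eq_single l]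
  · simp [hc]
  · intro b _ hb
    simp [Pi.single_eq_of_ne hb]
  · intro h; exact absurd (Finset.mem_univ l) h

theorem zmod2_ne_zero {x : ZMod 2} (h : x ≠ 0) : x = 1 := by
  revert x; decide

/-- counting by an injection -/
theorem card_mul_le {X S Z : Type*} [DecidableEq X] [DecidableEq S] [DecidableEq Z] [Fintype S] (Y T : Finset X)
    (U : Finset Z) (m : X → S → X) (r : S → Z) (hm : ∀ y ∈ Y, ∀ s, m y s ∈ T) (hr : ∀ s, r s ∈ U)
    (hi : ∀ y ∈ Y, ∀ y' ∈ Y, ∀ s s', m y s = m y' s' → r s = r s' → s = s')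
    (hi2 : ∀ y y' s, m y s = m y' s → y = y') :
    Y.card * Fintype.card S ≤ T.card * U.card := by
  classical
  rw [← Finset.card_univ (α := S), ← Finset.card_product, ← Finset.card_product]
  apply Finset.card_le_card_of_injOn (fun p => (m p.1 p.2, r p.2))
  · intro p hp
    simp only [Finset.coe_product, Set.mem_prod, Finset.mem_coe] at hp ⊢
    exact ⟨hm _ hp.1 _, hr _⟩
  · intro p hp p' hp' h
    simp only [Finset.coe_product, Set.mem_prod, Finset.mem_coe] at hp hp'
    simp only [Prod.mk.injEq] at h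
    have h1 := hi _ hp.1 _ hp'.1 _ _ h.1 h.2
    have h2 : p.1 = p'.1 := by
      apply hi2 p.1 p'.1 p.2
      rw [h.1, h1]
    exact Prod.ext h2 h1

section

variable {f k : ℕ}

/-- the first vectors of a table changed -/
def mvA (z : Fin k) (l : Fin f) (τ : Tab f k) (s : Fin k → ZMod 2) : Tab f k :=
  (fun j => τ.1 j + if j = z then Pi.single l (∑ i ∈ univ.erase z, s i) else Pi.single l (s j), τ.2)

theorem sum_mvA (z : Fin k) (l : Fin f) (τ : Tab f k) (s : Fin k → ZMod 2) :
    ∑ j, (mvA z l τ s).1 j = ∑ j, τ.1 j := by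
  simp only [mvA, Finset.sum_add_distrib]
  suffices h : ∑ j, (if j = z then Pi.single l (∑ i ∈ univ.erase z, s i) else Pi.single l (s j) :
      Fin f → ZMod 2) = 0 by rw [h, add_zero]
  rw [← Finset.add_sum_erase _ _ (Finset.mem_univ z)]
  rw [if_pos rfl]
  have h2 : ∑ x ∈ univ.erase z, (if x = z then Pi.single l (∑ i ∈ univ.erase z, s i) else Pi.single l (s x) :
      Fin f → ZMod 2) = Pi.single l (∑ i ∈ univ.erase z, s i) := by
    rw [Finset.sum_congr rfl (g := fun x => (Pi.single l (s x) : Fin f → ZMod 2))]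
    · funext m
      rw [Finset.sum_apply]
      by_cases hm : m = l
      · subst hm; simp
      · simp [Pi.single_eq_of_ne hm]
    · intro x hx
      rw [if_neg (Finset.ne_of_mem_erase hx)]
  rw [h2]
  funext m
  simp only [Pi.add_apply, Pi.zero_apply]
  exact CharTwo.add_self_eq_zero _

theorem card_S : Fintype.card (Fin k → ZMod 2) = 2 ^ k := by
  simp [ZMod.card]

theorem count_empty (hk : 1 ≤ k) (ψ c : Fin f → ZMod 2) (hc : c ≠ 0) :
    (univ.filter (fun τ : Tab f k => ∑ j, τ.1 j = ψ ∧ ∀ j, dot (τ.1 j) c = 0)).card * 2 ^ k ≤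
      (univ.filter (fun τ : Tab f k => ∑ j, τ.1 j = ψ)).card * 2 := by
  classical
  obtain ⟨l, hl⟩ := Function.ne_iff.mp hc
  have hl1 : c l = 1 := zmod2_ne_zero hl
  let z : Fin k := ⟨0, hk⟩
  have key := card_mul_le (univ.filter (fun τ : Tab f k => ∑ j, τ.1 j = ψ ∧ ∀ j, dot (τ.1 j) c = 0))
    (univ.filter (fun τ : Tab f k => ∑ j, τ.1 j = ψ)) (univ : Finset (ZMod 2)) (mvA z l)
    (fun s : Fin k → ZMod 2 => s z) ?_ (fun _ => Finset.mem_univ _) ?_ ?_
  · rw [card_S] at key
    have h2 : (univ : Finset (ZMod 2)).card = 2 := by simp [ZMod.card]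
    rw [h2] at key
    exact key
  · intro τ hτ s
    simp only [Finset.mem_filter, Finset.mem_univ, true_and] at hτ ⊢
    rw [sum_mvA]; exact hτ.1
  · intro τ hτ τ' hτ' s s' h hz
    simp only [Finset.mem_filter, Finset.mem_univ, true_and] at hτ hτ'
    funext j
    by_cases hj : j = z
    · rw [hj]; exact hz
    · have h1 := congrArg (fun t : Tab f k => dot (t.1 j) c) h
      simp only [mvA, if_neg hj] at h1
      rw [dot_add_left, dot_add_left, hτ.2 j, hτ'.2 j, dot_single l _ c hl1, dot_single l _ c hl1] at h1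
      simpa using h1
  · intro τ τ' s h
    have h1 := congrArg Prod.fst h
    have h2 := congrArg Prod.snd h
    simp only [mvA] at h1 h2
    apply Prod.ext _ h2
    funext j
    have h3 := congrFun h1 j
    exact add_right_cancel h3

/-- two vectors of a table changed -/
def mvB (z j0 : Fin k) (τ : Tab f k) (s : Fin f → ZMod 2) : Tab f k :=
  (fun j => τ.1 j + if j = z then s else if j = j0 then s else 0, τ.2)

theorem sum_mvB (z j0 : Fin k) (hz : z ≠ j0) (τ : Tab f k) (s : Fin f → ZMod 2) :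
    ∑ j, (mvB z j0 τ s).1 j = ∑ j, τ.1 j := by
  simp only [mvB, Finset.sum_add_distrib]
  suffices h : ∑ j, (if j = z then s else if j = j0 then s else 0 : Fin f → ZMod 2) = 0 by
    rw [h, add_zero]
  rw [← Finset.add_sum_erase _ _ (Finset.mem_univ z), if_pos rfl,
    ← Finset.add_sum_erase _ _ (Finset.mem_erase.mpr ⟨hz.symm, Finset.mem_univ j0⟩), if_neg hz.symm, if_pos rfl,
    Finset.sum_eq_zero]
  · rw [add_zero]
    funext m
    simp only [Pi.add_apply, Pi.zero_apply]
    exact CharTwo.add_self_eq_zero _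
  · intro x hx
    have h1 := Finset.mem_erase.mp hx
    have h2 := Finset.mem_erase.mp h1.2
    rw [if_neg h2.1, if_neg h1.1]

theorem count_psi (z j0 : Fin k) (J : Finset (Fin k)) (hz : z ∉ J) (hj0 : j0 ∈ J) (ψ ψ' : Fin f → ZMod 2) :
    (univ.filter (fun τ : Tab f k => ∑ j, τ.1 j = ψ ∧ ∑ j ∈ J, τ.1 j = ψ')).card * 2 ^ f ≤
      (univ.filter (fun τ : Tab f k => ∑ j, τ.1 j = ψ)).card := by
  classical
  have hzj : z ≠ j0 := fun h => hz (h ▸ hj0)
  have hsum : ∀ (τ : Tab f k) (s : Fin f → ZMod 2), ∑ j ∈ J, (mvB z j0 τ s).1 j = ∑ j ∈ J, τ.1 j + s := by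
    intro τ s
    simp only [mvB, Finset.sum_add_distrib]
    congr 1
    rw [Finset.sum_eq_single j0]
    · rw [if_neg hzj.symm, if_pos rfl]
    · intro b hb hbj
      have hbz : b ≠ z := fun h => hz (h ▸ hb)
      rw [if_neg hbz, if_neg hbj]
    · intro h; exact absurd hj0 h
  have key := card_mul_le (univ.filter (fun τ : Tab f k => ∑ j, τ.1 j = ψ ∧ ∑ j ∈ J, τ.1 j = ψ'))
    (univ.filter (fun τ : Tab f k => ∑ j, τ.1 j = ψ)) (univ : Finset Unit) (mvB z j0)
    (fun _ : Fin f → ZMod 2 => ()) ?_ (fun _ => Finset.mem_univ _) ?_ ?_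
  · rw [card_S] at key
    simpa using key
  · intro τ hτ s
    simp only [Finset.mem_filter, Finset.mem_univ, true_and] at hτ ⊢
    rw [sum_mvB z j0 hzj]; exact hτ.1
  · intro τ hτ τ' hτ' s s' h _
    simp only [Finset.mem_filter, Finset.mem_univ, true_and] at hτ hτ'
    have h1 := congrArg (fun t : Tab f k => ∑ j ∈ J, t.1 j) h
    simp only [hsum, hτ.2, hτ'.2] at h1
    exact add_left_cancel h1
  · intro τ τ' s h
    have h1 := congrArg Prod.fst h
    have h2 := congrArg Prod.snd h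
    simp only [mvB] at h1 h2
    apply Prod.ext _ h2
    funext j
    have h3 := congrFun h1 j
    exact add_right_cancel h3

/-- the change of the symbols of the pairs -/
def dl (z j0 : Fin k) (J : Finset (Fin k)) (s : Fin k → ZMod 2) (p : {p : Fin k × Fin k // p.1 < p.2}) : ZMod 2 :=
  if p.1.1 = j0 ∧ p.1.2 ∉ J then s p.1.2 else if p.1.2 = j0 ∧ p.1.1 ∉ J then s p.1.1 else
    if p.1.1 = z ∧ p.1.2 ∈ J ∧ p.1.2 ≠ j0 then s p.1.2 else 0

/-- the symbols of the pairs changed -/
def mvC (z j0 : Fin k) (J : Finset (Fin k)) (τ : Tab f k) (s : Fin k → ZMod 2) : Tab f k :=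
  (τ.1, fun p => τ.2 p + dl z j0 J s p)

/-- the change of the symbol -/
def Dt (z j0 : Fin k) (J : Finset (Fin k)) (s : Fin k → ZMod 2) (i j : Fin k) : ZMod 2 :=
  if h : i < j then dl z j0 J s ⟨(i, j), h⟩ else if h : j < i then dl z j0 J s ⟨(j, i), h⟩ else 0

theorem Mt_mvC (g : (Fin f → ZMod 2) → (Fin f → ZMod 2) → ZMod 2) (z j0 : Fin k) (J : Finset (Fin k))
    (τ : Tab f k) (s : Fin k → ZMod 2) (i j : Fin k) :
    Mt g (mvC z j0 J τ s) i j = Mt g τ i j + Dt z j0 J s i j := by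
  unfold Mt Dt mvC
  split_ifs
  · rfl
  · simp only; ring
  · simp

variable (z j0 : Fin k) (J : Finset (Fin k)) (hz0 : ∀ j : Fin k, j ≠ z → z < j) (hz : z ∉ J) (hj0 : j0 ∈ J)

include hz0 hz hj0 in
theorem Dt_out (s : Fin k → ZMod 2) (j : Fin k) (hj : j ∉ J) (hjz : j ≠ z) :
    ∑ i ∈ J, Dt z j0 J s i j = s j := by
  have hzj : z ≠ j0 := fun h => hz (h ▸ hj0)
  have hjj : j ≠ j0 := fun h => hj (h ▸ hj0)
  rw [Finset.sum_eq_single j0]
  · unfold Dt dl
    rcases lt_trichotomy j0 j with h | h | h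
    · rw [dif_pos h]; simp [hj]
    · exact absurd h.symm hjj
    · rw [dif_neg (not_lt.mpr h.le), dif_pos h]
      simp [hj, hjj]
  · intro b hb hbj
    unfold Dt dl
    have hbz : b ≠ z := fun h => hz (h ▸ hb)
    split_ifs <;> simp_all
  · intro h; exact absurd hj0 h

include hz0 hz hj0 in
theorem Dt_in (s : Fin k → ZMod 2) (j : Fin k) (hj : j ∈ J) (hjz : j ≠ j0) :
    ∑ i ∈ Jᶜ, Dt z j0 J s i j = s j := by
  have hzj : z ≠ j0 := fun h => hz (h ▸ hj0)
  have hjz' : j ≠ z := fun h => hz (h ▸ hj)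
  rw [Finset.sum_eq_single z]
  · unfold Dt dl
    rw [dif_pos (hz0 j hjz')]
    simp [hj, hzj, hjz]
  · intro b hb hbj
    have hb' : b ∉ J := Finset.mem_compl.mp hb
    unfold Dt dl
    have hbj0 : b ≠ j0 := fun h => hb' (h ▸ hj0)
    split_ifs <;> simp_all
  · intro h; exact absurd (Finset.mem_compl.mpr hz) h

include hz0 hz hj0 in
theorem Dt_z (s : Fin k → ZMod 2) :
    ∑ i ∈ J, Dt z j0 J s i z = s z + ∑ i ∈ J.erase j0, s i := by
  have hzj : z ≠ j0 := fun h => hz (h ▸ hj0)
  rw [← Finset.add_sum_erase _ _ hj0]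
  congr 1
  · unfold Dt dl
    have h1 := hz0 j0 hzj.symm
    rw [dif_neg (not_lt.mpr h1.le), dif_pos h1]
    simp [hz, hzj]
  · apply Finset.sum_congr rfl
    intro i hi
    have h2 := Finset.mem_erase.mp hi
    have h3 : i ≠ z := fun h => hz (h ▸ h2.2)
    have h1 := hz0 i h3
    unfold Dt dl
    rw [dif_neg (not_lt.mpr h1.le), dif_pos h1]
    simp [hz, hzj, h2.1, h2.2]

open Classical in
include hz0 hz hj0 in
theorem count_J (g : (Fin f → ZMod 2) → (Fin f → ZMod 2) → ZMod 2) (w ψ c : Fin f → ZMod 2)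
    (E : Finset ((Fin f → ZMod 2) × (Fin f → ZMod 2))) :
    (univ.filter (fun τ : Tab f k => ∑ j, τ.1 j = ψ ∧ IsSol g w E τ c J)).card * 2 ^ k ≤
      (univ.filter (fun τ : Tab f k => ∑ j, τ.1 j = ψ ∧ (∑ j ∈ J, τ.1 j, c) ∈ E)).card * 2 := by
  classical
  have hzj : z ≠ j0 := fun h => hz (h ▸ hj0)
  have key := card_mul_le (univ.filter (fun τ : Tab f k => ∑ j, τ.1 j = ψ ∧ IsSol g w E τ c J))
    (univ.filter (fun τ : Tab f k => ∑ j, τ.1 j = ψ ∧ (∑ j ∈ J, τ.1 j, c) ∈ E))
    (univ : Finset (ZMod 2)) (mvC z j0 J) (fun s : Fin k → ZMod 2 => s j0) ?_ (fun _ => Finset.mem_univ _) ?_ ?_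
  · rw [card_S] at key
    have h2 : (univ : Finset (ZMod 2)).card = 2 := by simp [ZMod.card]
    rw [h2] at key
    exact key
  · intro τ hτ s
    simp only [Finset.mem_filter, Finset.mem_univ, true_and] at hτ ⊢
    exact ⟨hτ.1, hτ.2.2.2.1⟩
  · intro τ hτ τ' hτ' s s' h hz'
    simp only [Finset.mem_filter, Finset.mem_univ, true_and] at hτ hτ'
    obtain ⟨-, -, -, -, ho, hi⟩ := hτ
    obtain ⟨-, -, -, -, ho', hi'⟩ := hτ'
    have hout : ∀ j, j ∉ J → ∑ i ∈ J, Dt z j0 J s i j = ∑ i ∈ J, Dt z j0 J s' i j := by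
      intro j hj
      have h1 := congrArg (fun t : Tab f k => dot (t.1 j) c + ∑ i ∈ J, Mt g t i j) h
      simp only [Mt_mvC, Finset.sum_add_distrib] at h1
      have e1 := ho j hj
      have e2 := ho' j hj
      have e3 : dot ((mvC z j0 J τ s).1 j) c = dot (τ.1 j) c := rfl
      have e4 : dot ((mvC z j0 J τ' s').1 j) c = dot (τ'.1 j) c := rfl
      rw [e3, e4, ← add_assoc, ← add_assoc, e1, e2, zero_add, zero_add] at h1
      exact h1
    have hin : ∀ j, j ∈ J → ∑ i ∈ Jᶜ, Dt z j0 J s i j = ∑ i ∈ Jᶜ, Dt z j0 J s' i j := by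
      intro j hj
      have h1 := congrArg (fun t : Tab f k => dot (t.1 j) (c + w) + ∑ i ∈ Jᶜ, Mt g t i j) h
      simp only [Mt_mvC, Finset.sum_add_distrib] at h1
      have e1 := hi j hj
      have e2 := hi' j hj
      have e3 : dot ((mvC z j0 J τ s).1 j) (c + w) = dot (τ.1 j) (c + w) := rfl
      have e4 : dot ((mvC z j0 J τ' s').1 j) (c + w) = dot (τ'.1 j) (c + w) := rfl
      rw [e3, e4, ← add_assoc, ← add_assoc, e1, e2, zero_add, zero_add] at h1
      exact h1
    have hin2 : ∀ j ∈ J, s j = s' j := by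
      intro j hj
      by_cases hjj : j = j0
      · rw [hjj]; exact hz'
      · have := hin j hj
        rwa [Dt_in z j0 J hz0 hz hj0 s j hj hjj, Dt_in z j0 J hz0 hz hj0 s' j hj hjj] at this
    funext j
    by_cases hj : j ∈ J
    · exact hin2 j hj
    · by_cases hjz : j = z
      · have h1 := hout z hz
        rw [Dt_z z j0 J hz0 hz hj0 s, Dt_z z j0 J hz0 hz hj0 s',
          Finset.sum_congr rfl (fun i hi => hin2 i (Finset.mem_of_mem_erase hi))] at h1
        rw [hjz]
        exact add_right_cancel h1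
      · have := hout j hj
        rwa [Dt_out z j0 J hz0 hz hj0 s j hj hjz, Dt_out z j0 J hz0 hz hj0 s' j hj hjz] at this
  · intro τ τ' s h
    have h1 := congrArg Prod.fst h
    have h2 := congrArg Prod.snd h
    simp only [mvC] at h1 h2
    apply Prod.ext h1
    funext j
    have h3 := congrFun h2 j
    exact add_right_cancel h3

end

open Classical in
theorem count : S_COUNT := by
  intro f k hk g w ψ E
  set T := (univ.filter (fun τ : Tab f k => ∑ j, τ.1 j = ψ)).card with hT
  let z : Fin k := ⟨0, hk⟩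
  have hz0 : ∀ j : Fin k, j ≠ z → z < j := by
    intro j hj
    rw [Fin.lt_def]
    have : (j : ℕ) ≠ 0 := fun h => hj (Fin.ext h)
    show 0 < (j : ℕ)
    omega
  -- the number of the tables for a solution
  let Nn' : (Fin f → ZMod 2) → Finset (Fin k) → ℕ := fun c J =>
    (univ.filter (fun τ : Tab f k => ∑ j, τ.1 j = ψ ∧ IsSol g w E τ c J)).card
  have hex : (∑ τ ∈ univ.filter (fun τ : Tab f k => ∑ j, τ.1 j = ψ),
      ((univ : Finset ((Fin f → ZMod 2) × Finset (Fin k))).filter
        (fun p => IsSol g w E τ p.1 p.2)).card) = ∑ J : Finset (Fin k), ∑ c : Fin f → ZMod 2, Nn' c J := by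
    rw [Finset.sum_comm]
    simp only [Nn', Finset.card_filter]
    rw [Finset.sum_filter]
    have h0 : ∀ τ : Tab f k, (∑ p : (Fin f → ZMod 2) × Finset (Fin k), if IsSol g w E τ p.1 p.2 then 1 else 0) =
        ∑ c : Fin f → ZMod 2, ∑ J : Finset (Fin k), (if IsSol g w E τ c J then 1 else 0) := by
      intro τ
      exact Fintype.sum_prod_type _
    simp only [h0]
    have h1 : ∀ τ : Tab f k, (if ∑ j, τ.1 j = ψ then
        ∑ c : Fin f → ZMod 2, ∑ J : Finset (Fin k), (if IsSol g w E τ c J then 1 else 0) else 0) =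
        ∑ c : Fin f → ZMod 2, ∑ J : Finset (Fin k), (if ∑ j, τ.1 j = ψ ∧ IsSol g w E τ c J then 1 else 0) := by
      intro τ
      split_ifs with h
      · simp [h]
      · simp [h]
    rw [Finset.sum_congr rfl (fun τ _ => h1 τ)]
    rw [Finset.sum_comm]
    apply Finset.sum_congr rfl
    intro c _
    rw [Finset.sum_comm]
  have hJ : ∀ J : Finset (Fin k), (∑ c : Fin f → ZMod 2, Nn' c J) * (2 ^ k * 2 ^ f) ≤
      if J = ∅ then 2 ^ f * 2 ^ f * 2 * T else if z ∈ J then 0 else 2 * E.card * T := by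
    intro J
    split_ifs with h1 h2
    · subst h1
      have h3 : ∀ c : Fin f → ZMod 2, Nn' c ∅ * 2 ^ k ≤ T * 2 := by
        intro c
        by_cases hc : c = 0
        · have h4 : Nn' c ∅ = 0 := by
            simp only [Nn', Finset.card_eq_zero, Finset.filter_eq_empty_iff]
            intro τ _ h5
            rcases h5.2.2.1 with h6 | h6
            · exact h6 hc
            · exact Finset.not_nonempty_empty h6
          rw [h4]; simp
        · refine le_trans (Nat.mul_le_mul_right _ (Finset.card_le_card ?_)) (count_empty hk ψ c hc)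
          intro τ hτ
          simp only [Finset.mem_filter, Finset.mem_univ, true_and] at hτ ⊢
          refine ⟨hτ.1, fun j => ?_⟩
          have := hτ.2.2.2.2.1 j (Finset.notMem_empty j)
          simpa using this
      calc (∑ c : Fin f → ZMod 2, Nn' c ∅) * (2 ^ k * 2 ^ f)
          = (∑ c : Fin f → ZMod 2, Nn' c ∅ * 2 ^ k) * 2 ^ f := by rw [← Finset.sum_mul]; ring
        _ ≤ (∑ c : Fin f → ZMod 2, T * 2) * 2 ^ f := Nat.mul_le_mul_right _ (Finset.sum_le_sum fun c _ => h3 c)
        _ = 2 ^ f * 2 ^ f * 2 * T := by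
          rw [Finset.sum_const, Finset.card_univ, card_S, smul_eq_mul]; ring
    · have h3 : ∀ c : Fin f → ZMod 2, Nn' c J = 0 := by
        intro c
        simp only [Nn', Finset.card_eq_zero, Finset.filter_eq_empty_iff]
        intro τ _ h5
        exact h5.2.1 z h2 rfl
      simp [h3]
    · obtain ⟨j0, hj0⟩ := Finset.nonempty_iff_ne_empty.mpr h1
      have h3 : ∀ c : Fin f → ZMod 2, Nn' c J * 2 ^ k ≤
          (univ.filter (fun τ : Tab f k => ∑ j, τ.1 j = ψ ∧ (∑ j ∈ J, τ.1 j, c) ∈ E)).card * 2 := by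
        intro c
        exact count_J z j0 J hz0 h2 hj0 g w ψ c E
      have h4 : (∑ c : Fin f → ZMod 2,
          (univ.filter (fun τ : Tab f k => ∑ j, τ.1 j = ψ ∧ (∑ j ∈ J, τ.1 j, c) ∈ E)).card) * 2 ^ f ≤
          E.card * T := by
        have h5 : ∀ c : Fin f → ZMod 2,
            (univ.filter (fun τ : Tab f k => ∑ j, τ.1 j = ψ ∧ (∑ j ∈ J, τ.1 j, c) ∈ E)).card =
            ∑ ψ' : Fin f → ZMod 2, if (ψ', c) ∈ E then
              (univ.filter (fun τ : Tab f k => ∑ j, τ.1 j = ψ ∧ ∑ j ∈ J, τ.1 j = ψ')).card else 0 := by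
          intro c
          rw [Finset.card_eq_sum_card_fiberwise (f := fun τ : Tab f k => ∑ j ∈ J, τ.1 j)
            (t := (univ : Finset (Fin f → ZMod 2))) (fun _ _ => Finset.mem_coe.mpr (Finset.mem_univ _))]
          apply Finset.sum_congr rfl
          intro ψ' _
          rw [Finset.filter_filter]
          split_ifs with h6
          · congr 1
            apply Finset.filter_congr
            intro τ _
            constructor
            · rintro ⟨⟨a, b⟩, c'⟩; exact ⟨a, c'⟩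
            · rintro ⟨a, c'⟩; exact ⟨⟨a, by rw [c']; exact h6⟩, c'⟩
          · rw [Finset.card_eq_zero, Finset.filter_eq_empty_iff]
            rintro τ _ ⟨⟨a, b⟩, c'⟩
            rw [c'] at b; exact h6 b
        have h6 : E.card = ∑ c : Fin f → ZMod 2, ∑ ψ' : Fin f → ZMod 2, if (ψ', c) ∈ E then 1 else 0 := by
          rw [Finset.sum_comm, ← Fintype.sum_prod_type' (f := fun (ψ' c : Fin f → ZMod 2) => if (ψ', c) ∈ E then 1 else 0)]
          simp
        rw [h6, Finset.sum_mul, Finset.sum_mul]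
        apply Finset.sum_le_sum
        intro c _
        rw [h5 c, Finset.sum_mul, Finset.sum_mul]
        apply Finset.sum_le_sum
        intro ψ' _
        split_ifs with h7
        · rw [one_mul]
          exact count_psi z j0 J h2 hj0 ψ ψ'
        · simp
      calc (∑ c : Fin f → ZMod 2, Nn' c J) * (2 ^ k * 2 ^ f)
          = (∑ c : Fin f → ZMod 2, Nn' c J * 2 ^ k) * 2 ^ f := by rw [← Finset.sum_mul]; ring
        _ ≤ (∑ c : Fin f → ZMod 2,
          (univ.filter (fun τ : Tab f k => ∑ j, τ.1 j = ψ ∧ (∑ j ∈ J, τ.1 j, c) ∈ E)).card * 2) * 2 ^ f :=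
            Nat.mul_le_mul_right _ (Finset.sum_le_sum fun c _ => h3 c)
        _ = ((∑ c : Fin f → ZMod 2,
          (univ.filter (fun τ : Tab f k => ∑ j, τ.1 j = ψ ∧ (∑ j ∈ J, τ.1 j, c) ∈ E)).card) * 2 ^ f) * 2 := by
            rw [← Finset.sum_mul]; ring
        _ ≤ (E.card * T) * 2 := Nat.mul_le_mul_right _ h4
        _ = 2 * E.card * T := by ring
  have hcardJ : (univ.filter (fun J : Finset (Fin k) => z ∉ J)).card * 2 = 2 ^ k := by
    have h1 : (univ.filter (fun J : Finset (Fin k) => z ∉ J)) = (univ.erase z).powerset := by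
      ext J
      simp only [Finset.mem_filter, Finset.mem_univ, true_and, Finset.mem_powerset]
      constructor
      · intro h x hx
        exact Finset.mem_erase.mpr ⟨fun e => h (e ▸ hx), Finset.mem_univ _⟩
      · intro h hx
        exact (Finset.mem_erase.mp (h hx)).1 rfl
    rw [h1, Finset.card_powerset, Finset.card_erase_of_mem (Finset.mem_univ _), Finset.card_univ,
      Fintype.card_fin, ← pow_succ]
    congr 1
    omega
  have hmain : (∑ J : Finset (Fin k), ∑ c : Fin f → ZMod 2, Nn' c J) * (2 ^ k * 2 ^ f) ≤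
      (E.card * 2 ^ k + 2 ^ f * 2 ^ f * 2) * T := by
    rw [Finset.sum_mul]
    refine le_trans (Finset.sum_le_sum fun J _ => hJ J) ?_
    have h1 : ∀ J : Finset (Fin k), (if J = ∅ then 2 ^ f * 2 ^ f * 2 * T else if z ∈ J then 0 else 2 * E.card * T) ≤
        (if J = ∅ then 2 ^ f * 2 ^ f * 2 * T else 0) + (if z ∉ J then 2 * E.card * T else 0) := by
      intro J
      split_ifs <;> simp_all
    refine le_trans (Finset.sum_le_sum fun J _ => h1 J) ?_
    rw [Finset.sum_add_distrib, Finset.sum_ite_eq' univ (∅ : Finset (Fin k)) (fun _ => 2 ^ f * 2 ^ f * 2 * T),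
      if_pos (Finset.mem_univ _), ← Finset.sum_filter, Finset.sum_const, smul_eq_mul]
    have h2 : (univ.filter (fun J : Finset (Fin k) => z ∉ J)).card * (2 * E.card * T) = E.card * 2 ^ k * T := by
      rw [← hcardJ]; ring
    rw [h2]
    ring_nf
    exact le_refl _
  have h2k : (0 : ℝ) < 2 ^ k := by positivity
  have h2f : (0 : ℝ) < 2 ^ f := by positivity
  have hR : ((∑ J : Finset (Fin k), ∑ c : Fin f → ZMod 2, Nn' c J : ℕ) : ℝ) * (2 ^ k * 2 ^ f) ≤
      ((E.card : ℝ) * 2 ^ k + 2 ^ f * 2 ^ f * 2) * (T : ℝ) := by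
    exact_mod_cast hmain
  rw [← hex] at hR
  push_cast at hR ⊢
  have hfin : (((E.card : ℝ) * 2 ^ k + 2 ^ f * 2 ^ f * 2) * (T : ℝ)) / (2 ^ k * 2 ^ f) =
      ((E.card : ℝ) / 2 ^ f + 2 ^ f * 2 / 2 ^ k) * (T : ℝ) := by
    field_simp
  rw [← hfin, le_div_iff₀ (by positivity)]
  exact hR

end Pool.Agent.Q129.LQ
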