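import Pool.Agent.Q151.LQ.Bas

/-!
# Project LQ, job CR2: the classes of the units of relative norm `1`, elementary part
-/

set_option autoImplicit false

namespace Pool.Agent.Q129.LQ

open NumberField IsDedekindDomain Filter Topology Finset
open Pool.Agent.Q283.LQ Pool.Agent.Q151.LQ

section quad

variable {F L : Type} [Field F] [Field L] [Algebra F L]

/-- the basis `1, √d` -/
theorem quad_basis {d : F} (hfr : Module.finrank F L = 2) {ρ : L} (hρ : ρ ^ 2 = algebraMap F L d)
    (hd : ¬ IsSquare d) : ∃ b : Module.Basis (Fin 2) F L, b 0 = 1 ∧ b 1 = ρ := by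
  have hli : LinearIndependent F ![(1 : L), ρ] := by
    rw [LinearIndependent.pair_iff]
    intro s t hst
    by_cases ht : t = 0
    · subst ht
      rw [zero_smul, add_zero, Algebra.smul_def, mul_one] at hst
      exact ⟨(map_eq_zero (algebraMap F L)).1 hst, rfl⟩
    · exfalso
      apply hd
      refine ⟨s / t, ?_⟩
      apply (algebraMap F L).injective
      rw [map_mul, map_div₀, ← hρ]
      rw [Algebra.smul_def, mul_one, Algebra.smul_def] at hst
      have ht' : algebraMap F L t ≠ 0 := (map_ne_zero _).2 ht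
      have h1 : algebraMap F L s = - (algebraMap F L t * ρ) := by linear_combination hst
      rw [h1]
      field_simp
  let b := basisOfLinearIndependentOfCardEqFinrank hli (by rw [hfr]; simp)
  refine ⟨b, ?_, ?_⟩ <;> simp [b]

variable {d : F} (hfr : Module.finrank F L = 2) {ρ : L} (hρ : ρ ^ 2 = algebraMap F L d) (hd : ¬ IsSquare d)

include hfr hρ hd in
theorem quad_rep (w : L) : ∃ x z : F, w = algebraMap F L x + algebraMap F L z * ρ := by
  obtain ⟨b, h0, h1⟩ := quad_basis hfr hρ hd
  refine ⟨b.repr w 0, b.repr w 1, ?_⟩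
  have h := b.sum_repr w
  rw [Fin.sum_univ_two, h0, h1, Algebra.smul_def, Algebra.smul_def, mul_one] at h
  exact h.symm

include hfr hρ hd in
theorem quad_norm_trace (x z : F) :
    Algebra.norm F (algebraMap F L x + algebraMap F L z * ρ) = x ^ 2 - d * z ^ 2 ∧
    Algebra.trace F L (algebraMap F L x + algebraMap F L z * ρ) = 2 * x := by
  classical
  obtain ⟨b, h0, h1⟩ := quad_basis hfr hρ hd
  have hr : ∀ s t : F, b.repr (algebraMap F L s + algebraMap F L t * ρ) = Finsupp.single 0 s + Finsupp.single 1 t := by
    intro s t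
    have h2 : algebraMap F L s + algebraMap F L t * ρ = s • b 0 + t • b 1 := by
      rw [h0, h1, Algebra.smul_def, Algebra.smul_def, mul_one]
    rw [h2, map_add, map_smul, map_smul, b.repr_self, b.repr_self, Finsupp.smul_single, Finsupp.smul_single,
      smul_eq_mul, smul_eq_mul, mul_one, mul_one]
  have e0 : b.repr ((algebraMap F L x + algebraMap F L z * ρ) * b 0) = Finsupp.single 0 x + Finsupp.single 1 z := by
    rw [h0, mul_one, hr]
  have e1 : b.repr ((algebraMap F L x + algebraMap F L z * ρ) * b 1) =
      Finsupp.single 0 (d * z) + Finsupp.single 1 x := by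
    have h2 : (algebraMap F L x + algebraMap F L z * ρ) * b 1 =
        algebraMap F L (d * z) + algebraMap F L x * ρ := by
      rw [h1, map_mul, ← hρ]; ring
    rw [h2, hr]
  constructor
  · rw [Algebra.norm_eq_matrix_det b, Matrix.det_fin_two]
    simp only [Algebra.leftMulMatrix_eq_repr_mul, e0, e1]
    simp
    ring
  · rw [Algebra.trace_eq_matrix_trace b, Matrix.trace_fin_two]
    simp only [Algebra.leftMulMatrix_eq_repr_mul, e0, e1]
    simp
    ring

/-- the class of a unit of norm `1` -/
noncomputable def ka (w : L) : F := 2 + Algebra.trace F L w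

include hfr hρ hd in
theorem ka_mul (w w' : L) (h : Algebra.norm F w = 1) (h' : Algebra.norm F w' = 1) :
    IsSquare (ka (F := F) w * ka (F := F) w' * ka (F := F) (w * w')) := by
  obtain ⟨x, z, rfl⟩ := quad_rep hfr hρ hd w
  obtain ⟨x', z', rfl⟩ := quad_rep hfr hρ hd w'
  have e : (algebraMap F L x + algebraMap F L z * ρ) * (algebraMap F L x' + algebraMap F L z' * ρ) =
      algebraMap F L (x * x' + d * z * z') + algebraMap F L (x * z' + z * x') * ρ := by
    simp only [map_add, map_mul, ← hρ]; ring
  rw [(quad_norm_trace hfr hρ hd x z).1] at h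
  rw [(quad_norm_trace hfr hρ hd x' z').1] at h'
  unfold ka
  rw [e, (quad_norm_trace hfr hρ hd x z).2, (quad_norm_trace hfr hρ hd x' z').2,
    (quad_norm_trace hfr hρ hd (x * x' + d * z * z') (x * z' + z * x')).2]
  refine ⟨2 + 2 * x + 2 * x' + 2 * (x * x' + d * z * z'), ?_⟩
  linear_combination (4 * d * z' ^ 2) * h + (4 * (x ^ 2 - 1)) * h'

end quad

end Pool.Agent.Q129.LQ
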