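import Pool.Agent.Q283.LQ.Stm2
import Pool.Agent.Q129.LQ.CR2A

/-!
# Project LQ, job CR2: the classes of the units of relative norm `1`
-/

set_option autoImplicit false

namespace Pool.Agent.Q129.LQ

open NumberField IsDedekindDomain Filter Topology Finset
open Pool.Agent.Q283.LQ Pool.Agent.Q151.LQ

variable {F L : Type} [Field F] [NumberField F] [Field L] [NumberField L] [Algebra F L]

theorem norm_neg' (hfr : Module.finrank F L = 2) (w : L) : Algebra.norm F (-w) = Algebra.norm F w := by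
  have h1 : Algebra.norm F (-1 : L) = 1 := by
    have h2 : (-1 : L) = algebraMap F L (-1) := by simp
    rw [h2, Algebra.norm_algebraMap, hfr]; ring
  rw [← neg_one_mul, map_mul, h1, one_mul]

/-- a number of norm `1` whose class is a square -/
theorem sq_of_ka {d : F} (hfr : Module.finrank F L = 2) {ρ : L} (hρ : ρ ^ 2 = algebraMap F L d)
    (hd : ¬ IsSquare d) (W : (𝓞 L)ˣ) (hW : Algebra.norm F ((W : 𝓞 L) : L) = 1)
    (h0 : ka (F := F) ((W : 𝓞 L) : L) ≠ 0) (hs : IsSquare (ka (F := F) ((W : 𝓞 L) : L))) :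
    ∃ η : (𝓞 L)ˣ, Algebra.norm F ((η : 𝓞 L) : L) = 1 ∧ W = η ^ 2 := by
  obtain ⟨x, z, hw⟩ := quad_rep hfr hρ hd ((W : 𝓞 L) : L)
  obtain ⟨g, hg⟩ := hs
  have hn : x ^ 2 - d * z ^ 2 = 1 := by rw [← (quad_norm_trace hfr hρ hd x z).1, ← hw, hW]
  have hk : ka (F := F) ((W : 𝓞 L) : L) = 2 + 2 * x := by
    unfold ka; rw [hw, (quad_norm_trace hfr hρ hd x z).2]
  have hg0 : g ≠ 0 := by
    rintro rfl
    rw [mul_zero] at hg
    exact h0 hg
  have hgL : algebraMap F L g ≠ 0 := (map_ne_zero _).2 hg0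
  rw [hk] at hg
  -- the square root
  let e : L := (1 + ((W : 𝓞 L) : L)) / algebraMap F L g
  have he2 : e ^ 2 = ((W : 𝓞 L) : L) := by
    have h1 : algebraMap F L g ^ 2 = 2 + 2 * algebraMap F L x := by
      rw [sq, ← map_mul, ← hg, map_add, map_mul, map_ofNat]
    have h2 : algebraMap F L x ^ 2 - algebraMap F L d * algebraMap F L z ^ 2 = 1 := by
      rw [← map_pow, ← map_pow, ← map_mul, ← map_sub, hn, map_one]
    show ((1 + ((W : 𝓞 L) : L)) / algebraMap F L g) ^ 2 = _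
    rw [div_pow, div_eq_iff (pow_ne_zero 2 hgL), h1, hw]
    rw [← hρ] at h2
    linear_combination (-1) * h2
  have hne : Algebra.norm F e = 1 := by
    have h1 : (1 + ((W : 𝓞 L) : L)) = algebraMap F L (1 + x) + algebraMap F L z * ρ := by
      rw [hw, map_add, map_one]; ring
    have h2 : e * algebraMap F L g = 1 + ((W : 𝓞 L) : L) := div_mul_cancel₀ _ hgL
    have h3 := congrArg (Algebra.norm F) h2
    rw [map_mul, h1, (quad_norm_trace hfr hρ hd (1 + x) z).1, Algebra.norm_algebraMap, hfr] at h3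
    have h4 : (g * g) * (Algebra.norm F e - 1) = 0 := by
      have h5 : Algebra.norm F e * g ^ 2 = 2 + 2 * x := by rw [h3]; linear_combination hn
      rw [hg] at h5
      linear_combination h5
    rcases mul_eq_zero.1 h4 with h5 | h5
    · exact absurd h5 (mul_ne_zero hg0 hg0)
    · linear_combination h5
  have hint : IsIntegral ℤ e := by
    apply IsIntegral.of_pow (n := 2) (by norm_num)
    rw [he2]
    exact RingOfIntegers.isIntegral_coe _
  let E : 𝓞 L := ⟨e, hint⟩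
  have hE2 : E ^ 2 = (W : 𝓞 L) := by
    apply RingOfIntegers.ext
    show ((E ^ 2 : 𝓞 L) : L) = _
    rw [← he2]
    rfl
  have hu : IsUnit E := by
    have h1 : IsUnit (E ^ 2) := by rw [hE2]; exact W.isUnit
    exact (isUnit_pow_iff (by norm_num)).1 h1
  obtain ⟨η, hη⟩ := hu
  refine ⟨η, ?_, ?_⟩
  · rw [hη]; exact hne
  · apply Units.ext
    rw [Units.val_pow_eq_pow_val, hη, hE2]

/-- a number of norm `1` with zero class is `-1` -/
theorem ka_ne {d : F} (hfr : Module.finrank F L = 2) {ρ : L} (hρ : ρ ^ 2 = algebraMap F L d)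
    (hd : ¬ IsSquare d) (W : (𝓞 L)ˣ) (hW : Algebra.norm F ((W : 𝓞 L) : L) = 1) (hW1 : W ≠ -1) :
    ka (F := F) ((W : 𝓞 L) : L) ≠ 0 := by
  intro h
  apply hW1
  obtain ⟨x, z, hw⟩ := quad_rep hfr hρ hd ((W : 𝓞 L) : L)
  have hn : x ^ 2 - d * z ^ 2 = 1 := by rw [← (quad_norm_trace hfr hρ hd x z).1, ← hw, hW]
  have hk : ka (F := F) ((W : 𝓞 L) : L) = 2 + 2 * x := by
    unfold ka; rw [hw, (quad_norm_trace hfr hρ hd x z).2]
  rw [hk] at h
  have hx : x = -1 := by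
    have h2 : (2 : F) ≠ 0 := two_ne_zero
    have h3 : (2 : F) * (x + 1) = 0 := by linear_combination h
    rcases mul_eq_zero.1 h3 with h4 | h4
    · exact absurd h4 h2
    · linear_combination h4
  have hd0 : d ≠ 0 := by rintro rfl; exact hd ⟨0, by simp⟩
  have hz : z = 0 := by
    rw [hx] at hn
    have h4 : d * z ^ 2 = 0 := by linear_combination -hn
    rcases mul_eq_zero.1 h4 with h5 | h5
    · exact absurd h5 hd0
    · exact pow_eq_zero_iff (two_ne_zero) |>.1 h5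
  apply Units.ext
  apply RingOfIntegers.ext
  rw [hw, hx, hz]
  simp

/-- the class of a number of norm `1` -/
theorem ka_class {d : F} (hfr : Module.finrank F L = 2) {ρ : L} (hρ : ρ ^ 2 = algebraMap F L d)
    (hd : ¬ IsSquare d) (W : (𝓞 L)ˣ) (hW : Algebra.norm F ((W : 𝓞 L) : L) = 1)
    (hns : ∀ η : (𝓞 L)ˣ, Algebra.norm F ((η : 𝓞 L) : L) = 1 → W ≠ η ^ 2 ∧ W ≠ -η ^ 2) :
    ¬ IsSquare (ka (F := F) ((W : 𝓞 L) : L)) ∧ ¬ IsSquare (ka (F := F) ((W : 𝓞 L) : L) * (-d)) := by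
  have hone : Algebra.norm F (((1 : (𝓞 L)ˣ) : 𝓞 L) : L) = 1 := by simp
  have hW1 : W ≠ -1 := by
    have := (hns 1 hone).2
    rwa [one_pow] at this
  have hW1' : W ≠ 1 := by
    have := (hns 1 hone).1
    rwa [one_pow] at this
  have h0 := ka_ne hfr hρ hd W hW hW1
  have hmn : Algebra.norm F (((-W : (𝓞 L)ˣ) : 𝓞 L) : L) = 1 := by
    have h1 : (((-W : (𝓞 L)ˣ) : 𝓞 L) : L) = - ((W : 𝓞 L) : L) := by simp
    rw [h1, norm_neg' hfr, hW]
  have h0' : ka (F := F) (((-W : (𝓞 L)ˣ) : 𝓞 L) : L) ≠ 0 := by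
    apply ka_ne hfr hρ hd (-W) hmn
    intro h
    exact hW1' (neg_injective h)
  refine ⟨fun hs => ?_, fun hs => ?_⟩
  · obtain ⟨η, h1, h2⟩ := sq_of_ka hfr hρ hd W hW h0 hs
    exact (hns η h1).1 h2
  · obtain ⟨x, z, hw⟩ := quad_rep hfr hρ hd ((W : 𝓞 L) : L)
    have hn : x ^ 2 - d * z ^ 2 = 1 := by rw [← (quad_norm_trace hfr hρ hd x z).1, ← hw, hW]
    have hk : ka (F := F) ((W : 𝓞 L) : L) = 2 + 2 * x := by
      unfold ka; rw [hw, (quad_norm_trace hfr hρ hd x z).2]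
    have hk' : ka (F := F) (((-W : (𝓞 L)ˣ) : 𝓞 L) : L) = 2 - 2 * x := by
      have h1 : (((-W : (𝓞 L)ˣ) : 𝓞 L) : L) = algebraMap F L (-x) + algebraMap F L (-z) * ρ := by
        have h2 : (((-W : (𝓞 L)ˣ) : 𝓞 L) : L) = - ((W : 𝓞 L) : L) := by simp
        rw [h2, hw, map_neg, map_neg]; ring
      unfold ka; rw [h1, (quad_norm_trace hfr hρ hd (-x) (-z)).2]; ring
    obtain ⟨g, hg⟩ := hs
    have hd0 : d ≠ 0 := by rintro rfl; exact hd ⟨0, by simp⟩
    have hg0 : g ≠ 0 := by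
      rintro rfl
      rw [mul_zero] at hg
      exact mul_ne_zero h0 (neg_ne_zero.2 hd0) hg
    have hsq : IsSquare (ka (F := F) (((-W : (𝓞 L)ˣ) : 𝓞 L) : L)) := by
      refine ⟨2 * d * z / g, ?_⟩
      rw [hk']
      rw [hk] at hg h0
      rw [div_mul_div_comm, eq_div_iff (mul_ne_zero hg0 hg0)]
      have h3 : (2 + 2 * x) * ((2 - 2 * x) * g ^ 2 - (2 * d * z) ^ 2) = 0 := by
        have h4 : g ^ 2 = (2 + 2 * x) * (-d) := by rw [sq, ← hg]
        rw [h4]
        linear_combination (4 * d * (2 + 2 * x)) * hn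
      rcases mul_eq_zero.1 h3 with h5 | h5
      · exact absurd h5 h0
      · linear_combination h5
    obtain ⟨η, h1, h2⟩ := sq_of_ka hfr hρ hd (-W) hmn h0' hsq
    exact (hns η h1).2 (by rw [← h2, neg_neg])

/-- the conditions at the odd places -/
theorem loc_cond (hB : S_BAS) {v : HeightOneSpectrum (𝓞 F)} (hv : ¬ Dy v) {a a' D z : F}
    (ha : a ≠ 0) (ha' : a' ≠ 0) (hD : D ≠ 0) (hz : z ≠ 0) (hia : v.valuation F a ≤ 1)
    (hia' : v.valuation F a' ≤ 1) (hs : a + a' = 4) (hp : a * a' = D * (2 * z) ^ 2) :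
    (¬ Od v D → ¬ Od v a) ∧ (Od v D → Lsq v a ∨ Lsq v (a * D)) := by
  have h4 : v.valuation F 4 = 1 := by
    have h3 : (4 : 𝓞 F) ∉ v.asIdeal := by
      intro h
      have e : (4 : 𝓞 F) = 2 * 2 := by norm_num
      rw [e] at h
      rcases v.isPrime.mem_or_mem h with h | h
      · exact hv h
      · exact hv h
    have h4 := (v.valuation_eq_one_iff_notMem (K := F)).2 h3
    rwa [map_ofNat] at h4
  have h2z : (2 * z) ≠ 0 := mul_ne_zero two_ne_zero hz
  have hsqo : ¬ Od v ((2 * z) ^ 2) := lsq_nod hB (lsq_sq hB v h2z)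
  have hprod : Od v (a * a') ↔ Od v D := by
    rw [hp, od_mul hB v hD (pow_ne_zero 2 h2z)]; tauto
  rw [od_mul hB v ha ha'] at hprod
  have hlt : ∀ b : F, v.valuation F b ≤ 1 → Od v b → v.valuation F b < 1 := by
    intro b hb ho
    refine lt_of_le_of_ne hb ?_
    intro h
    obtain ⟨n, hn⟩ := ho
    rw [h, ← WithZero.exp_zero] at hn
    have := WithZero.exp_injective hn
    omega
  -- `v(4 - b) < 1` gives a local square
  have hnear : ∀ b b' : F, b + b' = 4 → v.valuation F b' < 1 → Lsq v b := by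
    intro b b' hbb hb'
    apply (hB F v).2.2.2.2.1 b (1 / 2)
    rw [h4]
    have h20 : (2 : F) ≠ 0 := two_ne_zero
    have e : b * (1 / 2) ^ 2 - 1 = - b' / 4 := by
      have hb : b = 4 - b' := by linear_combination hbb
      rw [hb]; ring
    rw [e, map_div₀, Valuation.map_neg, h4, div_one]
    exact hb'
  constructor
  · intro hoD hoa
    have h5 : ¬ (Od v a ↔ ¬ Od v a') := fun h => hoD (hprod.1 h)
    have h6 : Od v a' := by tauto
    have h7 := hlt a hia hoa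
    have h8 := hlt a' hia' h6
    have h9 : v.valuation F (a + a') < 1 := lt_of_le_of_lt (Valuation.map_add _ _ _) (max_lt h7 h8)
    rw [hs, h4] at h9
    exact lt_irrefl _ h9
  · intro hoD
    have h5 := hprod.2 hoD
    by_cases h6 : Od v a
    · right
      have h7 : Lsq v a' := hnear a' a (by rw [add_comm]; exact hs) (hlt a hia h6)
      have h8 := lsq_mul hB (lsq_sq hB v ha) h7
      have h9 : a ^ 2 * a' = a * D * (2 * z) ^ 2 := by linear_combination a * hp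
      rw [h9] at h8
      exact lsq_of_mul_sq hB h2z h8
    · left
      have h7 : Od v a' := by tauto
      exact hnear a a' hs (hlt a' hia' h7)

theorem int_trace (v : HeightOneSpectrum (𝓞 F)) (w : 𝓞 L) :
    v.valuation F (Algebra.trace F L (w : L)) ≤ 1 ∧
      ((Algebra.trace F L (w : L) : F) : v.adicCompletion F) ∈ v.adicCompletionIntegers F := by
  have h1 : IsIntegral ℤ (Algebra.trace F L (w : L)) := Algebra.isIntegral_trace (RingOfIntegers.isIntegral_coe w)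
  let α : 𝓞 F := ⟨Algebra.trace F L (w : L), h1⟩
  constructor
  · exact v.valuation_le_one α
  · exact HeightOneSpectrum.coe_mem_adicCompletionIntegers v α

/-- the local conditions of the class of a unit of norm `1` -/
theorem cond_ka (hB : S_BAS) {d : F} (hfr : Module.finrank F L = 2) {ρ : L} (hρ : ρ ^ 2 = algebraMap F L d)
    (hd : ¬ IsSquare d) (I : Ideal (𝓞 F)) (W : (𝓞 L)ˣ) (hW : Algebra.norm F ((W : 𝓞 L) : L) = 1)
    (hW1 : W ≠ 1) (hW2 : W ≠ -1)
    (hAT : ∀ v : HeightOneSpectrum (𝓞 F), I ≤ v.asIdeal → AT v (-d) (2 + Algebra.trace F L ((W : 𝓞 L) : L))) :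
    Cond (AI I) (-d) (ka (F := F) ((W : 𝓞 L) : L)) := by
  have hd0 : d ≠ 0 := by rintro rfl; exact hd ⟨0, by simp⟩
  have h0 := ka_ne hfr hρ hd W hW hW2
  have hmn : Algebra.norm F (((-W : (𝓞 L)ˣ) : 𝓞 L) : L) = 1 := by
    have h1 : (((-W : (𝓞 L)ˣ) : 𝓞 L) : L) = - ((W : 𝓞 L) : L) := by simp
    rw [h1, norm_neg' hfr, hW]
  have h0' : ka (F := F) (((-W : (𝓞 L)ˣ) : 𝓞 L) : L) ≠ 0 := by
    apply ka_ne hfr hρ hd (-W) hmn
    intro h
    exact hW1 (neg_injective h)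
  obtain ⟨x, z, hw⟩ := quad_rep hfr hρ hd ((W : 𝓞 L) : L)
  have hn : x ^ 2 - d * z ^ 2 = 1 := by rw [← (quad_norm_trace hfr hρ hd x z).1, ← hw, hW]
  have ht : Algebra.trace F L ((W : 𝓞 L) : L) = 2 * x := by rw [hw, (quad_norm_trace hfr hρ hd x z).2]
  have hk : ka (F := F) ((W : 𝓞 L) : L) = 2 + 2 * x := by unfold ka; rw [ht]
  have hmw : (((-W : (𝓞 L)ˣ) : 𝓞 L) : L) = algebraMap F L (-x) + algebraMap F L (-z) * ρ := by
    have h2 : (((-W : (𝓞 L)ˣ) : 𝓞 L) : L) = - ((W : 𝓞 L) : L) := by simp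
    rw [h2, hw, map_neg, map_neg]; ring
  have ht' : Algebra.trace F L (((-W : (𝓞 L)ˣ) : 𝓞 L) : L) = 2 * (-x) := by
    rw [hmw, (quad_norm_trace hfr hρ hd (-x) (-z)).2]
  have hk' : ka (F := F) (((-W : (𝓞 L)ˣ) : 𝓞 L) : L) = 2 - 2 * x := by
    unfold ka; rw [ht']; ring
  have hz : z ≠ 0 := by
    rintro rfl
    have h1 : (2 + 2 * x) * (2 - 2 * x) = 0 := by linear_combination (-4) * hn
    rcases mul_eq_zero.1 h1 with h2 | h2
    · rw [← hk] at h2; exact h0 h2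
    · rw [← hk'] at h2; exact h0' h2
  have hval : ∀ (v : HeightOneSpectrum (𝓞 F)) (t : F), v.valuation F t ≤ 1 → v.valuation F (2 + t) ≤ 1 := by
    intro v t ht
    refine le_trans (Valuation.map_add _ _ _) (max_le ?_ ht)
    have h1 := v.valuation_le_one (K := F) (2 : 𝓞 F)
    have e : algebraMap (𝓞 F) F 2 = 2 := map_ofNat (algebraMap (𝓞 F) F) 2
    rw [← e]
    exact h1
  have hloc : ∀ v : HeightOneSpectrum (𝓞 F), ¬ Dy v →
      (¬ Od v (-d) → ¬ Od v (ka (F := F) ((W : 𝓞 L) : L))) ∧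
      (Od v (-d) → Lsq v (ka (F := F) ((W : 𝓞 L) : L)) ∨ Lsq v (ka (F := F) ((W : 𝓞 L) : L) * (-d))) := by
    intro v hv
    refine loc_cond hB hv h0 h0' (neg_ne_zero.2 hd0) hz (hval v _ (int_trace v (W : 𝓞 L)).1)
      (hval v _ (int_trace v (((-W : (𝓞 L)ˣ) : 𝓞 L))).1) ?_ ?_
    · rw [hk, hk']; ring
    · rw [hk, hk']; linear_combination (-4) * hn
  constructor
  · exact h0
  · exact fun v hv => (hloc v hv).1
  · exact fun v hv => (hloc v hv).2
  · intro v hv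
    refine ⟨fun hI => hAT v hI, fun _ => ⟨h0, (x : v.adicCompletion F), (z : v.adicCompletion F), ?_, ?_,
      Or.inl ⟨?_, ?_⟩⟩⟩
    · have h1 : x ^ 2 + (-d) * z ^ 2 = 1 := by linear_combination hn
      have h2 := congrArg (fun t : F => (t : v.adicCompletion F)) h1
      simp only [sq, HeightOneSpectrum.adicCompletion.coe_add, HeightOneSpectrum.adicCompletion.coe_mul,
        HeightOneSpectrum.adicCompletion.coe_one] at h2
      rw [sq, sq]
      exact h2
    · have h1 := (int_trace v (W : 𝓞 L)).2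
      rw [ht] at h1
      have h2 : ((2 * x : F) : v.adicCompletion F) = 2 * (x : v.adicCompletion F) := by
        rw [two_mul, HeightOneSpectrum.adicCompletion.coe_add, two_mul]
      rwa [h2] at h1
    · intro h
      apply h0
      rw [hk]
      have h1 : ((x + 1 : F) : v.adicCompletion F) = 0 := by
        rw [HeightOneSpectrum.adicCompletion.coe_add, h, HeightOneSpectrum.adicCompletion.coe_one]; ring
      have h2 : x + 1 = 0 := by
        by_contra h3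
        have h4 : ((x + 1 : F) : v.adicCompletion F) * (((x + 1)⁻¹ : F) : v.adicCompletion F) = 1 := by
          rw [← HeightOneSpectrum.adicCompletion.coe_mul, mul_inv_cancel₀ h3,
            HeightOneSpectrum.adicCompletion.coe_one]
        rw [h1, zero_mul] at h4
        exact zero_ne_one h4
      linear_combination 2 * h2
    · refine ⟨((ka (F := F) ((W : 𝓞 L) : L) : F) : v.adicCompletion F), ?_⟩
      congr 1
      have h2 : (2 + 2 * x : F) = (1 + 1) + (x + x) := by ring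
      rw [hk, h2, HeightOneSpectrum.adicCompletion.coe_add, HeightOneSpectrum.adicCompletion.coe_add,
        HeightOneSpectrum.adicCompletion.coe_add, HeightOneSpectrum.adicCompletion.coe_one]
      ring
  · intro φ hφ
    rw [hk, map_add, map_mul, map_ofNat]
    rw [map_neg] at hφ
    have h1 := congrArg φ hn
    rw [map_sub, map_mul, map_pow, map_pow, map_one] at h1
    have h2 : φ x ^ 2 ≤ 1 := by
      have h3 : 0 ≤ (-φ d) * φ z ^ 2 := mul_nonneg hφ.le (sq_nonneg _)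
      linarith
    have h3 : -1 ≤ φ x := by
      exact (abs_le.1 ((sq_le_one_iff_abs_le_one (φ x)).1 h2)).1
    have h4 : φ (2 + 2 * x) ≠ 0 := by
      rw [← hk]
      exact fun h => h0 ((map_eq_zero φ).1 h)
    rw [map_add, map_mul, map_ofNat] at h4
    have h5 : 0 ≤ 2 + 2 * φ x := by linarith
    exact lt_of_le_of_ne h5 h4.symm

/-- **JOB CR2** -/
theorem cr2 (hCR1 : S_CR1) (hCR2L : S_CR2L') (hBAS : S_BAS) : S_CR2' := by
  classical
  intro F L _ _ _ _ _ d hQ hd I hI s t hF hL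
  obtain ⟨ρ, hρ⟩ := hQ.root
  have hfr := hQ.deg
  obtain ⟨w, hwn, hwsq, M, hM, hMN⟩ := hCR1 F L I hI hfr s t hF hL
  let P : (Fin t → ZMod 2) → (𝓞 L)ˣ := fun c => ∏ j, w j ^ (c j).val
  have nprod : ∀ e : Fin t → ℕ, Algebra.norm F (((∏ j, w j ^ e j : (𝓞 L)ˣ) : 𝓞 L) : L) = 1 := by
    intro e
    have h1 : (((∏ j, w j ^ e j : (𝓞 L)ˣ) : 𝓞 L) : L) = ∏ j, (((w j : (𝓞 L)ˣ) : 𝓞 L) : L) ^ e j := by
      rw [Units.coe_prod]
      simp
    rw [h1, map_prod]
    refine Finset.prod_eq_one fun j _ => ?_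
    rw [map_pow, hwn j, one_pow]
  have hPn : ∀ c, Algebra.norm F (((P c : (𝓞 L)ˣ) : 𝓞 L) : L) = 1 := fun c => nprod _
  have hone : Algebra.norm F (((1 : (𝓞 L)ˣ) : 𝓞 L) : L) = 1 := by simp
  have hP1 : ∀ c, c ≠ 0 → P c ≠ 1 ∧ P c ≠ -1 := by
    intro c hc
    have := hwsq c hc 1 hone
    rwa [one_pow] at this
  have hcls : ∀ c, c ≠ 0 → ∀ η : (𝓞 L)ˣ, Algebra.norm F ((η : 𝓞 L) : L) = 1 →
      ¬ IsSquare (ka (F := F) (((P c * η ^ 2 : (𝓞 L)ˣ) : 𝓞 L) : L)) ∧
      ¬ IsSquare (ka (F := F) (((P c * η ^ 2 : (𝓞 L)ˣ) : 𝓞 L) : L) * (-d)) ∧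
      ka (F := F) (((P c * η ^ 2 : (𝓞 L)ˣ) : 𝓞 L) : L) ≠ 0 := by
    intro c hc η hη
    have hN : Algebra.norm F (((P c * η ^ 2 : (𝓞 L)ˣ) : 𝓞 L) : L) = 1 := by
      have h1 : (((P c * η ^ 2 : (𝓞 L)ˣ) : 𝓞 L) : L) = ((P c : 𝓞 L) : L) * ((η : 𝓞 L) : L) ^ 2 := by simp
      rw [h1, map_mul, map_pow, hPn, hη]; ring
    have hns : ∀ ζ : (𝓞 L)ˣ, Algebra.norm F ((ζ : 𝓞 L) : L) = 1 →
        P c * η ^ 2 ≠ ζ ^ 2 ∧ P c * η ^ 2 ≠ -ζ ^ 2 := by
      intro ζ hζ
      have hq : Algebra.norm F (((ζ * η⁻¹ : (𝓞 L)ˣ) : 𝓞 L) : L) = 1 := by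
        have h0 : (((ζ * η⁻¹ * η : (𝓞 L)ˣ) : 𝓞 L) : L) =
            (((ζ * η⁻¹ : (𝓞 L)ˣ) : 𝓞 L) : L) * ((η : 𝓞 L) : L) := by
          rw [Units.val_mul]
          exact map_mul (algebraMap (𝓞 L) L) _ _
        have h1 : (((ζ * η⁻¹ : (𝓞 L)ˣ) : 𝓞 L) : L) * ((η : 𝓞 L) : L) = ((ζ : 𝓞 L) : L) := by
          rw [← h0, inv_mul_cancel_right]
        have h2 := congrArg (Algebra.norm F) h1
        rw [map_mul, hη, hζ, mul_one] at h2
        exact h2
      obtain ⟨h1, h2⟩ := hwsq c hc (ζ * η⁻¹) hq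
      constructor
      · intro h
        apply h1
        show P c = _
        rw [mul_pow, ← h, inv_pow, mul_inv_cancel_right]
      · intro h
        apply h2
        show P c = _
        rw [mul_pow, ← neg_mul, ← h, inv_pow, mul_inv_cancel_right]
    obtain ⟨h1, h2⟩ := ka_class hfr hρ hd _ hN hns
    refine ⟨h1, h2, ?_⟩
    intro h
    rw [h] at h1
    exact h1 ⟨0, by simp⟩
  -- the classes
  have hcond : ∀ c, c ≠ 0 → Cond (AI I) (-d) (ka (F := F) (((P c : (𝓞 L)ˣ) : 𝓞 L) : L)) := by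
    intro c hc
    refine cond_ka hBAS hfr hρ hd I (P c) (hPn c) (hP1 c hc).1 (hP1 c hc).2 ?_
    intro v hv
    exact hCR2L F L d hQ hd I hI v hv (P c) M hM (hPn c) (hP1 c hc).2 (fun N => hMN c N)
  have hself : ∀ c, c ≠ 0 → ¬ IsSquare (ka (F := F) (((P c : (𝓞 L)ˣ) : 𝓞 L) : L)) ∧
      ¬ IsSquare (ka (F := F) (((P c : (𝓞 L)ˣ) : 𝓞 L) : L) * (-d)) := by
    intro c hc
    have := hcls c hc 1 hone
    rw [one_pow, mul_one] at this
    exact ⟨this.1, this.2.1⟩
  have hpair : ∀ c c', c ≠ 0 → c' ≠ 0 → c ≠ c' →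
      ¬ IsSquare (ka (F := F) (((P c : (𝓞 L)ˣ) : 𝓞 L) : L) * ka (F := F) (((P c' : (𝓞 L)ˣ) : 𝓞 L) : L)) ∧
      ¬ IsSquare (ka (F := F) (((P c : (𝓞 L)ˣ) : 𝓞 L) : L) * ka (F := F) (((P c' : (𝓞 L)ˣ) : 𝓞 L) : L) *
        (-d)) := by
    intro c c' hc hc' hcc
    have hc'' : c + c' ≠ 0 := by
      intro h
      apply hcc
      have h1 : c' + c' = 0 := funext fun j => CharTwo.add_self_eq_zero _
      calc c = c + (c' + c') := by rw [h1, add_zero]
        _ = (c + c') + c' := by rw [add_assoc]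
        _ = c' := by rw [h, zero_add]
    choose e he using fun l => val_add_mod (c l) (c' l)
    have hmul : P c * P c' = P (c + c') * (∏ j, w j ^ e j) ^ 2 := by
      show (∏ j, w j ^ (c j).val) * (∏ j, w j ^ (c' j).val) = (∏ j, w j ^ ((c + c') j).val) * _
      rw [← Finset.prod_mul_distrib, ← Finset.prod_pow, ← Finset.prod_mul_distrib]
      refine Finset.prod_congr rfl fun l _ => ?_
      rw [← pow_add, he l, pow_add, mul_comm 2 (e l), pow_mul]
      rfl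
    obtain ⟨h1, h2, h3⟩ := hcls (c + c') hc'' (∏ j, w j ^ e j) (nprod e)
    rw [← hmul] at h1 h2 h3
    have h4 := ka_mul hfr hρ hd (((P c : (𝓞 L)ˣ) : 𝓞 L) : L) (((P c' : (𝓞 L)ˣ) : 𝓞 L) : L) (hPn c) (hPn c')
    have h5 : (((P c * P c' : (𝓞 L)ˣ) : 𝓞 L) : L) = (((P c : (𝓞 L)ˣ) : 𝓞 L) : L) * (((P c' : (𝓞 L)ˣ) : 𝓞 L) : L) := by
      simp
    rw [← h5] at h4
    obtain ⟨S, hS⟩ := h4
    have hd0 : d ≠ 0 := by rintro rfl; exact hd ⟨0, by simp⟩
    have ha := (hcond c hc).ne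
    have ha' := (hcond c' hc').ne
    generalize ka (F := F) (((P c : (𝓞 L)ˣ) : 𝓞 L) : L) = a at *
    generalize ka (F := F) (((P c' : (𝓞 L)ˣ) : 𝓞 L) : L) = a' at *
    generalize ka (F := F) (((P c * P c' : (𝓞 L)ˣ) : 𝓞 L) : L) = b at *
    have haa : a * a' ≠ 0 := mul_ne_zero ha ha'
    constructor
    · rintro ⟨r, hr⟩
      have hr0 : r ≠ 0 := by rintro rfl; rw [mul_zero] at hr; exact haa hr
      apply h1
      refine ⟨S / r, ?_⟩
      rw [div_mul_div_comm, ← hS, ← hr]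
      field_simp
    · rintro ⟨r, hr⟩
      have hr0 : r ≠ 0 := by
        rintro rfl; rw [mul_zero] at hr
        exact mul_ne_zero haa (neg_ne_zero.2 hd0) hr
      apply h2
      refine ⟨S * (-d) / r, ?_⟩
      rw [div_mul_div_comm, ← hr]
      have h6 : S * (-d) * (S * (-d)) = a * a' * b * (d * d) := by rw [hS]; ring
      rw [h6]
      field_simp
  -- enumerate the nonzero vectors
  have hcard : Fintype.card {c : Fin t → ZMod 2 // c ≠ 0} = 2 ^ t - 1 := by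
    rw [Fintype.card_subtype_compl, Fintype.card_subtype_eq]
    simp [ZMod.card]
  let e : Fin (2 ^ t - 1) ≃ {c : Fin t → ZMod 2 // c ≠ 0} := (Fintype.equivFinOfCardEq hcard).symm
  refine ⟨fun i => ka (F := F) (((P (e i).1 : (𝓞 L)ˣ) : 𝓞 L) : L), fun i => ⟨hcond _ (e i).2, hself _ (e i).2⟩,
    fun i j hij => hpair _ _ (e i).2 (e j).2 ?_⟩
  intro h
  exact hij (e.injective (Subtype.ext h))

end Pool.Agent.Q129.LQ
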