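import Pool.Agent.Q151.LQ.SH1

/-!
# Project LQ, job SH2: the solutions of the table
-/

set_option autoImplicit false

namespace Pool.Agent.Q129.LQ

open NumberField IsDedekindDomain Filter Topology Finset
open Pool.Agent.Q283.LQ Pool.Agent.Q151.LQ

variable {F : Type} [Field F] [NumberField F]

theorem isSq_of_mul_sq {a x : F} (hx : x ≠ 0) (h : IsSquare (a * x ^ 2)) : IsSquare a := by
  obtain ⟨z, hz⟩ := h
  refine ⟨z / x, ?_⟩
  field_simp
  rw [hz]; ring

theorem sb_zero_iff {v : HeightOneSpectrum (𝓞 F)} {a : F} : sb v a = 0 ↔ Lsq v a := by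
  unfold sb
  split_ifs with h
  · simp [h]
  · simp [h]

theorem sb_one_iff {v : HeightOneSpectrum (𝓞 F)} {a : F} : sb v a = 1 ↔ ¬ Lsq v a := by
  unfold sb
  split_ifs with h
  · simp [h]
  · simp [h]

theorem sb_mul (hB : S_BAS) {v : HeightOneSpectrum (𝓞 F)} (hv : ¬ Dy v) {a b : F} (ha : a ≠ 0) (hb : b ≠ 0)
    (ha' : ¬ Od v a) (hb' : ¬ Od v b) : sb v (a * b) = sb v a + sb v b := by
  by_cases h1 : Lsq v a
  · rw [sb_zero_iff.2 h1, zero_add]
    by_cases h2 : Lsq v b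
    · rw [sb_zero_iff.2 h2, sb_zero_iff.2 (lsq_mul hB h1 h2)]
    · rw [sb_one_iff.2 h2, sb_one_iff.2]
      intro h3
      apply h2
      have h4 := lsq_mul hB h1 h3
      have h5 : a * (a * b) = b * a ^ 2 := by ring
      rw [h5] at h4
      exact lsq_of_mul_sq hB ha h4
  · by_cases h2 : Lsq v b
    · rw [sb_zero_iff.2 h2, sb_one_iff.2 h1, add_zero, sb_one_iff.2]
      intro h3
      apply h1
      have h4 := lsq_mul hB h3 h2
      have h5 : a * b * b = a * b ^ 2 := by ring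
      rw [h5] at h4
      exact lsq_of_mul_sq hB hb h4
    · rw [sb_one_iff.2 h1, sb_one_iff.2 h2, sb_zero_iff.2 ((hB F v).2.2.2.2.2 hv a b ha hb ha' hb' h1 h2)]
      rfl

theorem nod_one (hB : S_BAS) (v : HeightOneSpectrum (𝓞 F)) : ¬ Od v (1 : F) := by
  have := lsq_nod hB (lsq_sq hB v (one_ne_zero (α := F)))
  rwa [one_pow] at this

theorem lsq_one (hB : S_BAS) (v : HeightOneSpectrum (𝓞 F)) : Lsq v (1 : F) := by
  have := lsq_sq hB v (one_ne_zero (α := F))
  rwa [one_pow] at this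

theorem nod_prod (hB : S_BAS) {v : HeightOneSpectrum (𝓞 F)} {ι : Type} (s : Finset ι) (a : ι → F)
    (ha : ∀ i ∈ s, a i ≠ 0) (ho : ∀ i ∈ s, ¬ Od v (a i)) : ¬ Od v (∏ i ∈ s, a i) := by
  classical
  induction s using Finset.induction_on with
  | empty => rw [Finset.prod_empty]; exact nod_one hB v
  | insert i s hi ih =>
    rw [Finset.prod_insert hi, od_mul hB v (ha i (Finset.mem_insert_self i s))
      (Finset.prod_ne_zero_iff.2 fun j hj => ha j (Finset.mem_insert_of_mem hj))]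
    have h1 := ih (fun j hj => ha j (Finset.mem_insert_of_mem hj)) (fun j hj => ho j (Finset.mem_insert_of_mem hj))
    have h2 := ho i (Finset.mem_insert_self i s)
    tauto

theorem sb_prod (hB : S_BAS) {v : HeightOneSpectrum (𝓞 F)} (hv : ¬ Dy v) {ι : Type} (s : Finset ι) (a : ι → F)
    (ha : ∀ i ∈ s, a i ≠ 0) (ho : ∀ i ∈ s, ¬ Od v (a i)) : sb v (∏ i ∈ s, a i) = ∑ i ∈ s, sb v (a i) := by
  classical
  induction s using Finset.induction_on with
  | empty => rw [Finset.prod_empty, Finset.sum_empty]; exact sb_zero_iff.2 (lsq_one hB v)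
  | insert i s hi ih =>
    have ha' : ∀ j ∈ s, a j ≠ 0 := fun j hj => ha j (Finset.mem_insert_of_mem hj)
    have ho' : ∀ j ∈ s, ¬ Od v (a j) := fun j hj => ho j (Finset.mem_insert_of_mem hj)
    rw [Finset.prod_insert hi, Finset.sum_insert hi, sb_mul hB hv (ha i (Finset.mem_insert_self i s))
      (Finset.prod_ne_zero_iff.2 ha') (ho i (Finset.mem_insert_self i s)) (nod_prod hB s a ha' ho'), ih ha' ho']

theorem sb_mon (hB : S_BAS) {v : HeightOneSpectrum (𝓞 F)} (hv : ¬ Dy v) {f : ℕ} {u : Fin f → F}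
    (hu : ∀ l, u l ≠ 0) (ho : ∀ l, ¬ Od v (u l)) (c : Fin f → ZMod 2) :
    sb v (mon u c) = dot (fun l => sb v (u l)) c := by
  unfold mon dot
  have key : ∀ (a : F) (e : ZMod 2), a ≠ 0 → ¬ Od v a → (¬ Od v (a ^ e.val) ∧ sb v (a ^ e.val) = sb v a * e) := by
    intro a e ha hoa
    have h2 : e = 0 ∨ e = 1 := by revert e; decide
    rcases h2 with rfl | rfl
    · simp only [ZMod.val_zero, pow_zero, mul_zero]
      exact ⟨nod_one hB v, sb_zero_iff.2 (lsq_one hB v)⟩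
    · have h3 : (1 : ZMod 2).val = 1 := rfl
      rw [h3, pow_one, mul_one]
      exact ⟨hoa, rfl⟩
  rw [sb_prod hB hv _ _ (fun i _ => pow_ne_zero _ (hu i)) (fun i _ => (key _ _ (hu i) (ho i)).1)]
  exact Finset.sum_congr rfl fun i _ => (key _ _ (hu i) (ho i)).2

theorem sm_of_dy {y : ℕ} (hy : 2 ≤ y) {v : HeightOneSpectrum (𝓞 F)} (h : Dy v) : Sm y v :=
  ⟨2, Nat.prime_two, hy, by exact_mod_cast h⟩

/-- the class of the product of the generators -/
theorem nn_prod (hB : S_BAS) {y f : ℕ} {u r : Fin f → F} {π : HeightOneSpectrum (𝓞 F) → F}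
    {g : (Fin f → ZMod 2) → (Fin f → ZMod 2) → ZMod 2} (B : Base y f u r π g) {k : ℕ}
    (q : Fin k → HeightOneSpectrum (𝓞 F)) (hS : ∀ i, ¬ Sm y (q i)) (φ : Fin k → Fin f → ZMod 2)
    (hφ : ∀ j l, sb (q j) (u l) = φ j l) (s : Finset (Fin k)) :
    Nn y ((∏ j ∈ s, π (q j)) * mon r (∑ j ∈ s, φ j)) := by
  have h1 : ∀ s : Finset (Fin k), Nn y (∏ j ∈ s, (π (q j) * mon r (φ j))) := by
    intro s
    induction s using Finset.induction_on with
    | empty =>
      rw [Finset.prod_empty]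
      have := nn_sq hB y (one_ne_zero (α := F))
      rwa [one_pow] at this
    | insert i s hi ih =>
      rw [Finset.prod_insert hi]
      refine nn_mul hB ?_ ih
      have h2 := B.pc (q i) (hS i)
      have h3 : (fun l => sb (q i) (u l)) = φ i := funext fun l => hφ i l
      rwa [h3] at h2
  have h2 := h1 s
  obtain ⟨x, hx, h3⟩ := mon_sum B.re s φ
  rw [Finset.prod_mul_distrib, h3, ← mul_assoc] at h2
  exact nn_of_mul_sq hB hx h2

theorem cond_mulD (hB : S_BAS) {A : HeightOneSpectrum (𝓞 F) → F → F → Prop} {c : HeightOneSpectrum (𝓞 F) → ℕ}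
    (hL : Loc A c) {D a : F} (hD : D ≠ 0) (h : Cond A D a) : Cond A D (a * D) where
  ne := mul_ne_zero h.ne hD
  even := by
    intro v hv ho
    rw [od_mul hB v h.ne hD]
    have := h.even v hv ho
    tauto
  odd := by
    intro v hv ho
    rcases h.odd v hv ho with h1 | h1
    · right
      have h2 := lsq_mul hB h1 (lsq_sq hB v hD)
      have h3 : a * D * D = a * D ^ 2 := by ring
      rwa [h3]
    · exact Or.inl h1
  two := fun v hv => hL.clo v D a hv hD (h.two v hv)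
  real := fun φ hφ => by
    rw [map_mul]
    exact mul_pos (h.real φ hφ) hφ

theorem condS_of (hB : S_BAS) {A : HeightOneSpectrum (𝓞 F) → F → F → Prop} {c : HeightOneSpectrum (𝓞 F) → ℕ}
    (hL : Loc A c) {y : ℕ} (hy : 2 ≤ y) {D0 D a : F} (hD0 : D0 ≠ 0) (hD : D ≠ 0) (hN : Nn y (D * D0))
    (h : Cond A D a) : CondS A y D0 a where
  ne := h.ne
  even := by
    intro v hs hv ho
    apply h.even v hv
    have h1 := lsq_nod hB (hN.2.1 v hs)
    rw [od_mul hB v hD hD0] at h1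
    tauto
  odd := by
    intro v hs hv ho
    have h0 := hN.2.1 v hs
    have h1 := lsq_nod hB h0
    rw [od_mul hB v hD hD0] at h1
    have h2 : Od v D := by tauto
    rcases h.odd v hv h2 with h3 | h3
    · exact Or.inl h3
    · right
      have h4 := lsq_mul hB h3 h0
      have h5 : a * D * (D * D0) = a * D0 * D ^ 2 := by ring
      rw [h5] at h4
      exact lsq_of_mul_sq hB hD h4
  two := by
    intro v hv
    have h0 := hN.2.1 v (sm_of_dy hy hv)
    have h1 : Lsq v (D0 / D) := by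
      have h2 : D * D0 = D0 / D * D ^ 2 := by field_simp
      rw [h2] at h0
      exact lsq_of_mul_sq hB hD h0
    have h3 := hL.inv v D (D0 / D) a hv hD h1 (h.two v hv)
    rwa [mul_div_cancel₀ _ hD] at h3
  real := by
    intro φ hφ
    apply h.real φ
    have h1 := hN.2.2 φ
    rw [map_mul] at h1
    exact (pos_iff_pos_of_mul_pos h1).2 hφ

/-- the solution belonging to `a` -/
theorem sol (hB : S_BAS) (hSH1 : S_SH1) {y f : ℕ} {u r : Fin f → F}
    {π : HeightOneSpectrum (𝓞 F) → F} {g : (Fin f → ZMod 2) → (Fin f → ZMod 2) → ZMod 2}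
    (B : Base y f u r π g) {A : HeightOneSpectrum (𝓞 F) → F → F → Prop} {cc : HeightOneSpectrum (𝓞 F) → ℕ}
    (hL : Loc A cc) {D0 : F} {ψ w : Fin f → ZMod 2} (hD0 : D0 ≠ 0) (hw : Nn y (D0 * mon r ψ * mon u w))
    {k : ℕ} (q : Fin k → HeightOneSpectrum (𝓞 F)) (hk : 1 ≤ k) (hq : Function.Injective q)
    (hS : ∀ i, ¬ Sm y (q i)) (τ : Tab f k) (hτ : Tb u π τ q)
    (E : Finset ((Fin f → ZMod 2) × (Fin f → ZMod 2)))
    (hE : ∀ a p, CondS A y D0 a → Nn y (a * mon r p.1 * mon u p.2) → p ∈ E)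
    {D : F} (hfit : Fits y D0 q D) {a : F} (ha : Cond A D a) (hz : ¬ Od (q ⟨0, hk⟩) a) (hns : ¬ IsSquare a) :
    ∃ p : (Fin f → ZMod 2) × Finset (Fin k), IsSol g w E τ p.1 p.2 ∧
      IsSquare (a * (∏ j ∈ p.2, π (q j)) * mon u p.1) := by
  classical
  have hπ : ∀ i, π (q i) ≠ 0 := fun i => (B.po (q i) (hS i)).1
  have hP0 : ∀ s : Finset (Fin k), ∏ j ∈ s, π (q j) ≠ 0 := fun s => Finset.prod_ne_zero_iff.2 fun j _ => hπ j
  have hdy : ∀ v : HeightOneSpectrum (𝓞 F), ¬ Sm y v → ¬ Dy v := fun v hv h => hv (sm_of_dy B.two h)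
  obtain ⟨J, hJ⟩ : ∃ J : Finset (Fin k), ∀ j, j ∈ J ↔ Od (q j) a :=
    ⟨univ.filter (fun j => Od (q j) a), fun j => by simp⟩
  have hev : ∀ v, ¬ Sm y v → ¬ Od v (a * ∏ j ∈ J, π (q j)) := by
    intro v hv
    rw [od_mul hB v ha.ne (hP0 J), od_prod hB B q hq hS v hv J]
    by_cases h : ∃ i, q i = v
    · obtain ⟨i, rfl⟩ := h
      have h1 := hJ i
      have h2 : (∃ j ∈ J, q j = q i) ↔ i ∈ J := by
        constructor
        · rintro ⟨j, hj, h3⟩; exact hq h3 ▸ hj
        · intro h3; exact ⟨i, h3, rfl⟩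
      rw [h2]; tauto
    · have h1 : ¬ Od v D := fun h2 => h ((hfit.ram v hv).1 h2)
      have h2 := ha.even v (hdy v hv) h1
      have h3 : ¬ ∃ j ∈ J, q j = v := fun ⟨j, _, h4⟩ => h ⟨j, h4⟩
      tauto
  obtain ⟨c, hc⟩ := B.full _ (mul_ne_zero ha.ne (hP0 J)) hev
  have hmc : mon u c ≠ 0 := mon_ne B.ue c
  refine ⟨(c, J), ⟨?_, ?_, ?_, ?_, ?_⟩, hc⟩
  · intro j hj h0
    have h1 : j = ⟨0, hk⟩ := Fin.ext h0
    rw [h1] at hj
    exact hz ((hJ _).1 hj)
  · by_contra h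
    push Not at h
    obtain ⟨h1, h2⟩ := h
    simp only at h1 h2
    rw [h1, h2, Finset.prod_empty, mon_zero, mul_one, mul_one] at hc
    exact hns hc
  · -- the class
    show (∑ j ∈ J, τ.1 j, c) ∈ E
    refine hE a _ (condS_of hB hL B.two hD0 hfit.ne ⟨mul_ne_zero hfit.ne hD0, hfit.loc, hfit.real⟩ ha) ?_
    have h1 := nn_of_isSquare hB y (mul_ne_zero (mul_ne_zero ha.ne (hP0 J)) hmc) hc
    have h2 := nn_prod hB B q hS τ.1 hτ.1 J
    have h3 := nn_mul hB h1 h2
    have h4 : a * (∏ j ∈ J, π (q j)) * mon u c * ((∏ j ∈ J, π (q j)) * mon r (∑ j ∈ J, τ.1 j)) =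
        (a * mon r (∑ j ∈ J, τ.1 j) * mon u c) * (∏ j ∈ J, π (q j)) ^ 2 := by ring
    rw [h4] at h3
    exact nn_of_mul_sq hB (hP0 J) h3
  · -- outside `J`
    intro j hj
    show dot (τ.1 j) c + ∑ i ∈ J, Mt g τ i j = 0
    have hdj := hdy _ (hS j)
    have hoD : Od (q j) D := (hfit.ram _ (hS j)).2 ⟨j, rfl⟩
    have hoa : ¬ Od (q j) a := fun h => hj ((hJ j).2 h)
    have hla : Lsq (q j) a := by
      rcases ha.odd _ hdj hoD with h | h
      · exact h
      · exfalso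
        apply lsq_nod hB h
        rw [od_mul hB _ ha.ne hfit.ne]; tauto
    have hoJ : ∀ i ∈ J, ¬ Od (q j) (π (q i)) := by
      intro i hi h
      have := ((B.po (q i) (hS i)).2 (q j) (hS j)).1 h
      exact hj (hq this ▸ hi)
    have h1 : sb (q j) (a * (∏ j ∈ J, π (q j)) * mon u c) = 0 := by
      apply sb_zero_iff.2
      obtain ⟨x, hx⟩ := hc
      rw [hx]
      have hx0 : x ≠ 0 := by
        rintro rfl
        exact mul_ne_zero (mul_ne_zero ha.ne (hP0 J)) hmc (by rw [hx, mul_zero])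
      have := lsq_sq hB (q j) hx0
      rwa [sq] at this
    have hnm : ¬ Od (q j) (mon u c) := nod_mon hB B.ue (fun l => B.uo l _ (hS j)) c
    have hnP : ¬ Od (q j) (∏ j ∈ J, π (q j)) := nod_prod hB J _ (fun i _ => hπ i) hoJ
    rw [sb_mul hB hdj (mul_ne_zero ha.ne (hP0 J)) hmc (hev _ (hS j)) hnm, sb_mul hB hdj ha.ne (hP0 J) hoa hnP,
      sb_zero_iff.2 hla, zero_add, sb_mon hB hdj B.ue (fun l => B.uo l _ (hS j)),
      sb_prod hB hdj J _ (fun i _ => hπ i) hoJ] at h1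
    rw [add_comm]
    have h2 : (fun l => sb (q j) (u l)) = τ.1 j := funext fun l => hτ.1 j l
    rw [h2] at h1
    rw [← h1]
    congr 1
    apply Finset.sum_congr rfl
    intro i hi
    have hij : i ≠ j := fun h => hj (h ▸ hi)
    unfold Mt
    rcases lt_trichotomy i j with h3 | h3 | h3
    · rw [dif_pos h3]
      exact (hτ.2.1 ⟨(i, j), h3⟩).symm
    · exact absurd h3 hij
    · rw [dif_neg (not_lt.mpr h3.le), dif_pos h3]
      have h4 := B.rcp (q j) (q i) (hS j) (hS i) (hτ.2.2 j i hij.symm)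
      have h5 := hτ.2.1 ⟨(j, i), h3⟩
      simp only at h5
      have h6 : (fun l => sb (q i) (u l)) = τ.1 i := funext fun l => hτ.1 i l
      rw [h2, h6, h5] at h4
      rw [← h4, ← add_assoc, CharTwo.add_self_eq_zero, zero_add]
  · -- in `J`
    intro j hj
    show dot (τ.1 j) (c + w) + ∑ i ∈ Jᶜ, Mt g τ i j = 0
    have hdj := hdy _ (hS j)
    have hoD : Od (q j) D := (hfit.ram _ (hS j)).2 ⟨j, rfl⟩
    have hoa : Od (q j) a := (hJ j).1 hj
    have hla : Lsq (q j) (a * D) := by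
      rcases ha.odd _ hdj hoD with h | h
      · exact absurd hoa (lsq_nod hB h)
      · exact h
    have hoJ : ∀ i ∈ Jᶜ, ¬ Od (q j) (π (q i)) := by
      intro i hi h
      have := ((B.po (q i) (hS i)).2 (q j) (hS j)).1 h
      exact (Finset.mem_compl.mp hi) (hq this ▸ hj)
    have hmw : mon u w ≠ 0 := mon_ne B.ue w
    have hsq2 := (hSH1 F y f u r π g B D0 ψ w hD0 hw k q hq hS τ hτ).2 D hfit
    have hall : IsSquare ((a * D) * (∏ i ∈ Jᶜ, π (q i)) * (mon u c * mon u w)) := by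
      apply isSq_of_mul_sq (hP0 J)
      have h1 := hc.mul hsq2
      rw [← Finset.prod_mul_prod_compl J (fun i => π (q i))] at h1
      have h2 : a * (∏ j ∈ J, π (q j)) * mon u c * (D * mon u w * ((∏ i ∈ J, π (q i)) * ∏ i ∈ Jᶜ, π (q i))) =
        (a * D) * (∏ i ∈ Jᶜ, π (q i)) * (mon u c * mon u w) * (∏ j ∈ J, π (q j)) ^ 2 := by ring
      rw [h2] at h1
      exact h1
    have haD : a * D ≠ 0 := mul_ne_zero ha.ne hfit.ne
    have h1 : sb (q j) ((a * D) * (∏ i ∈ Jᶜ, π (q i)) * (mon u c * mon u w)) = 0 := by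
      apply sb_zero_iff.2
      obtain ⟨x, hx⟩ := hall
      rw [hx]
      have hx0 : x ≠ 0 := by
        rintro rfl
        exact mul_ne_zero (mul_ne_zero haD (hP0 Jᶜ)) (mul_ne_zero hmc hmw) (by rw [hx, mul_zero])
      have := lsq_sq hB (q j) hx0
      rwa [sq] at this
    have hnm : ¬ Od (q j) (mon u c) := nod_mon hB B.ue (fun l => B.uo l _ (hS j)) c
    have hnw : ¬ Od (q j) (mon u w) := nod_mon hB B.ue (fun l => B.uo l _ (hS j)) w
    have hnP : ¬ Od (q j) (∏ j ∈ Jᶜ, π (q j)) := nod_prod hB Jᶜ _ (fun i _ => hπ i) hoJ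
    have hnaD := lsq_nod hB hla
    have hn1 : ¬ Od (q j) ((a * D) * (∏ i ∈ Jᶜ, π (q i))) := by
      rw [od_mul hB _ haD (hP0 _)]; tauto
    have hn2 : ¬ Od (q j) (mon u c * mon u w) := by
      rw [od_mul hB _ hmc hmw]; tauto
    rw [sb_mul hB hdj (mul_ne_zero haD (hP0 Jᶜ)) (mul_ne_zero hmc hmw) hn1 hn2, sb_mul hB hdj haD (hP0 Jᶜ) hnaD hnP,
      sb_zero_iff.2 hla, zero_add, sb_mul hB hdj hmc hmw hnm hnw,
      sb_mon hB hdj B.ue (fun l => B.uo l _ (hS j)), sb_mon hB hdj B.ue (fun l => B.uo l _ (hS j)),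
      sb_prod hB hdj Jᶜ _ (fun i _ => hπ i) hoJ] at h1
    have h2 : (fun l => sb (q j) (u l)) = τ.1 j := funext fun l => hτ.1 j l
    rw [h2] at h1
    have hdot : dot (τ.1 j) (c + w) = dot (τ.1 j) c + dot (τ.1 j) w := by
      simp [dot, mul_add, Finset.sum_add_distrib]
    rw [hdot, add_comm, ← h1]
    congr 1
    apply Finset.sum_congr rfl
    intro i hi
    have hij : i ≠ j := fun h => (Finset.mem_compl.mp hi) (h ▸ hj)
    unfold Mt
    rcases lt_trichotomy i j with h3 | h3 | h3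
    · rw [dif_pos h3]
      exact (hτ.2.1 ⟨(i, j), h3⟩).symm
    · exact absurd h3 hij
    · rw [dif_neg (not_lt.mpr h3.le), dif_pos h3]
      have h4 := B.rcp (q j) (q i) (hS j) (hS i) (hτ.2.2 j i hij.symm)
      have h5 := hτ.2.1 ⟨(j, i), h3⟩
      simp only at h5
      have h6 : (fun l => sb (q i) (u l)) = τ.1 i := funext fun l => hτ.1 i l
      rw [h2, h6, h5] at h4
      rw [← h4, ← add_assoc, CharTwo.add_self_eq_zero, zero_add]

/-- **JOB SH2** -/
theorem sh2 (hBAS : S_BAS) (hSH1 : S_SH1) : S_SH2 := by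
  classical
  intro F _ _ y f u r π g B A cc hL D0 ψ w hD0 hw k q hk hq hS τ hτ E hE D N hfit hM
  obtain ⟨a, ha, hij⟩ := hM
  have hoD : Od (q ⟨0, hk⟩) D := (hfit.ram _ (hS _)).2 ⟨_, rfl⟩
  have key : ∀ i, ∃ p : (Fin f → ZMod 2) × Finset (Fin k), IsSol g w E τ p.1 p.2 ∧
      ∃ e : F, (e = 1 ∨ e = D) ∧ IsSquare (a i * e * ((∏ j ∈ p.2, π (q j)) * mon u p.1)) := by
    intro i
    obtain ⟨h1, h2, h3⟩ := ha i
    by_cases h4 : Od (q ⟨0, hk⟩) (a i)
    · have h5 := cond_mulD hBAS hL hfit.ne h1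
      have h6 : ¬ Od (q ⟨0, hk⟩) (a i * D) := by
        rw [od_mul hBAS _ h1.ne hfit.ne]; tauto
      obtain ⟨p, hp1, hp2⟩ := sol hBAS hSH1 B hL hD0 hw q hk hq hS τ hτ E hE hfit h5 h6 h3
      refine ⟨p, hp1, D, Or.inr rfl, ?_⟩
      rwa [← mul_assoc]
    · obtain ⟨p, hp1, hp2⟩ := sol hBAS hSH1 B hL hD0 hw q hk hq hS τ hτ E hE hfit h1 h4 h2
      refine ⟨p, hp1, 1, Or.inl rfl, ?_⟩
      rwa [mul_one, ← mul_assoc]
  choose p hp e he hsq using key
  have hinj : Function.Injective p := by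
    intro i j h
    by_contra hne
    have h1 := (hsq i).mul (hsq j)
    rw [h] at h1
    have h2 : a i * e i * ((∏ l ∈ (p j).2, π (q l)) * mon u (p j).1) *
        (a j * e j * ((∏ l ∈ (p j).2, π (q l)) * mon u (p j).1)) =
        a i * a j * (e i * e j) * ((∏ l ∈ (p j).2, π (q l)) * mon u (p j).1) ^ 2 := by ring
    rw [h2] at h1
    have h3 := isSq_of_mul_sq (mul_ne_zero
      (Finset.prod_ne_zero_iff.2 fun l _ => (B.po (q l) (hS l)).1) (mon_ne B.ue _)) h1
    obtain ⟨h4, h5⟩ := hij i j hne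
    rcases he i with h6 | h6 <;> rcases he j with h7 | h7 <;> rw [h6, h7] at h3
    · rw [mul_one, mul_one] at h3; exact h4 h3
    · rw [one_mul] at h3; exact h5 h3
    · rw [mul_one] at h3; exact h5 h3
    · have h8 : a i * a j * (D * D) = a i * a j * D ^ 2 := by ring
      rw [h8] at h3
      exact h4 (isSq_of_mul_sq hfit.ne h3)
  calc N = (univ : Finset (Fin N)).card := by simp
    _ = (univ.image p).card := (Finset.card_image_of_injective _ hinj).symm
    _ ≤ _ := by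
      apply Finset.card_le_card
      intro x hx
      obtain ⟨i, _, rfl⟩ := Finset.mem_image.mp hx
      simp only [Finset.mem_filter, Finset.mem_univ, true_and]
      exact hp i

end Pool.Agent.Q129.LQ
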